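import Mathlib

set_option autoImplicit false

namespace Pool.Agent.H318.HLC

open Set Topology Metric Filter

/-- every connected subset is locally connected -/
def Hlc (X : Type*) [TopologicalSpace X] : Prop :=
  ∀ S : Set X, IsPreconnected S → LocallyConnectedSpace ↥S

variable {X : Type*} [MetricSpace X]

theorem comp_eq_inter (h : Hlc X) {S N : Set X} (hS : IsPreconnected S) (hN : IsOpen N) {p : X}
    (hpS : p ∈ S) (hpN : p ∈ N) :
    ∃ G : Set X, IsOpen G ∧ connectedComponentIn (S ∩ N) p = S ∩ G := by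
  have := h S hS
  have hF : IsOpen (Subtype.val ⁻¹' N : Set ↥S) := hN.preimage continuous_subtype_val
  have hC : IsOpen (connectedComponentIn (Subtype.val ⁻¹' N : Set ↥S) ⟨p, hpS⟩) :=
    hF.connectedComponentIn
  obtain ⟨G, hG, hGC⟩ := isOpen_induced_iff.1 hC
  refine ⟨G, hG, ?_⟩
  have hpF : (⟨p, hpS⟩ : ↥S) ∈ (Subtype.val ⁻¹' N : Set ↥S) := hpN
  apply subset_antisymm
  · intro y hy
    have hyS : y ∈ S := (connectedComponentIn_subset _ _ hy).1
    have hsub : connectedComponentIn (S ∩ N) p ⊆ S :=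
      (connectedComponentIn_subset _ _).trans inter_subset_left
    have hT : IsPreconnected (Subtype.val ⁻¹' (connectedComponentIn (S ∩ N) p) : Set ↥S) := by
      rw [← Topology.IsInducing.subtypeVal.isPreconnected_image, Subtype.image_preimage_coe,
        inter_eq_right.2 hsub]
      exact isPreconnected_connectedComponentIn
    have hpC : p ∈ connectedComponentIn (S ∩ N) p := mem_connectedComponentIn ⟨hpS, hpN⟩
    have h1 := hT.subset_connectedComponentIn (x := ⟨p, hpS⟩) (F := Subtype.val ⁻¹' N)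
      hpC (fun z hz => (connectedComponentIn_subset (S ∩ N) p hz).2)
    have h2 : (⟨y, hyS⟩ : ↥S) ∈ (Subtype.val ⁻¹' G : Set ↥S) := by
      rw [hGC]; exact h1 hy
    exact ⟨hyS, h2⟩
  · have himg : Subtype.val '' (connectedComponentIn (Subtype.val ⁻¹' N : Set ↥S) ⟨p, hpS⟩)
        = S ∩ G := by
      rw [← hGC, Subtype.image_preimage_coe]
    rw [← himg]
    apply IsPreconnected.subset_connectedComponentIn
    · exact isPreconnected_connectedComponentIn.image _ continuous_subtype_val.continuousOn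
    · exact ⟨⟨p, hpS⟩, mem_connectedComponentIn hpF, rfl⟩
    · rintro _ ⟨z, hz, rfl⟩
      exact ⟨z.2, (connectedComponentIn_subset _ _ hz : z ∈ Subtype.val ⁻¹' N)⟩

theorem closure_comp_inter {A : Set X} {p : X} (hp : p ∈ A) {y : X}
    (hy : y ∈ closure (connectedComponentIn A p)) (hyA : y ∈ A) :
    y ∈ connectedComponentIn A p := by
  have h1 : IsPreconnected (insert y (connectedComponentIn A p)) :=
    isPreconnected_connectedComponentIn.subset_closure (subset_insert _ _)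
      (insert_subset hy subset_closure)
  exact h1.subset_connectedComponentIn (mem_insert_of_mem _ (mem_connectedComponentIn hp))
    (insert_subset hyA (connectedComponentIn_subset _ _)) (mem_insert _ _)

/-- if `K ⊆ N` is relatively open and relatively closed in the preconnected set `N`,
and meets it, it is everything -/
theorem clopen_full {N K G : Set X} (hN : IsPreconnected N) (hG : IsOpen G)
    (hKG : N ∩ G ⊆ K) (hGK : N ∩ closure K ⊆ G) (hne : (N ∩ G).Nonempty) : N ⊆ K := by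
  intro z hz
  by_contra hzK
  have hzG : z ∉ closure K := fun hc => hzK (hKG ⟨hz, hGK ⟨hz, hc⟩⟩)
  obtain ⟨w, hw, hwG, hwK⟩ := hN G (closure K)ᶜ hG isClosed_closure.isOpen_compl
    (by
      intro n hn
      by_cases hc : n ∈ closure K
      · exact Or.inl (hGK ⟨hn, hc⟩)
      · exact Or.inr hc) hne ⟨z, hz, hzG⟩
  exact hwK (subset_closure (hKG ⟨hw, hwG⟩))

theorem T0 (h : Hlc X) {K : Set X} (hK : IsPreconnected K) (hl : IsLocallyClosed K) {a b : X}
    (ha : a ∈ K) (hb : b ∈ K) :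
    ∃ T, IsClosed T ∧ IsPreconnected T ∧ T ⊆ K ∧ a ∈ T ∧ b ∈ T := by
  obtain ⟨U, R, hU, hR, hKUR⟩ := hl
  have hsymm : ∀ x y : X, (∃ T, IsClosed T ∧ IsPreconnected T ∧ T ⊆ K ∧ x ∈ T ∧ y ∈ T) →
      (∃ T, IsClosed T ∧ IsPreconnected T ∧ T ⊆ K ∧ y ∈ T ∧ x ∈ T) := by
    rintro x y ⟨T, h1, h2, h3, h4, h5⟩
    exact ⟨T, h1, h2, h3, h5, h4⟩
  refine hK.induction₂' (fun x y => ∃ T, IsClosed T ∧ IsPreconnected T ∧ T ⊆ K ∧ x ∈ T ∧ y ∈ T)
    ?_ ?_ ha hb
  · intro k hk
    have hkU : k ∈ U := by rw [hKUR] at hk; exact hk.1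
    obtain ⟨r, hr, hrU⟩ := Metric.nhds_basis_closedBall.mem_iff.1 (hU.mem_nhds hkU)
    obtain ⟨G, hG, hGC⟩ := comp_eq_inter h hK (isOpen_ball (x := k) (ε := r)) hk (mem_ball_self hr)
    have hkC : k ∈ connectedComponentIn (K ∩ ball k r) k :=
      mem_connectedComponentIn ⟨hk, mem_ball_self hr⟩
    have hLK : closure (connectedComponentIn (K ∩ ball k r) k) ⊆ K := by
      intro z hz
      rw [hKUR]
      constructor
      · apply hrU
        exact closure_minimal ((connectedComponentIn_subset _ _).trans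
          (inter_subset_right.trans ball_subset_closedBall)) isClosed_closedBall hz
      · have : K ⊆ R := by rw [hKUR]; exact inter_subset_right
        exact closure_minimal ((connectedComponentIn_subset _ _).trans
          (inter_subset_left.trans this)) hR hz
    have hGk : k ∈ G := by
      rw [hGC] at hkC; exact hkC.2
    have hev : ∀ᶠ y in 𝓝[K] k, y ∈ connectedComponentIn (K ∩ ball k r) k := by
      rw [eventually_nhdsWithin_iff]
      filter_upwards [hG.mem_nhds hGk] with y hy hyK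
      rw [hGC]; exact ⟨hyK, hy⟩
    filter_upwards [hev] with y hy
    have hP : ∃ T, IsClosed T ∧ IsPreconnected T ∧ T ⊆ K ∧ k ∈ T ∧ y ∈ T :=
      ⟨_, isClosed_closure, isPreconnected_connectedComponentIn.closure, hLK,
        subset_closure hkC, subset_closure hy⟩
    exact ⟨hP, hsymm _ _ hP⟩
  · rintro x y z _ _ _ ⟨T, h1, h2, h3, h4, h5⟩ ⟨T', h1', h2', h3', h4', h5'⟩
    exact ⟨T ∪ T', h1.union h1', h2.union y h5 h4' h2', union_subset h3 h3', Or.inl h4,
      Or.inr h5'⟩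

/-- small relatively open connected piece near an outside limit point -/
theorem C1 (h : Hlc X) {R : Set X} (hR : IsPreconnected R) {z : X} (hz : z ∈ closure R)
    (hzR : z ∉ R) {ε : ℝ} (hε : 0 < ε) :
    ∃ R' G : Set X, IsOpen G ∧ R' = R ∩ G ∧ IsPreconnected R' ∧ R' ⊆ ball z ε ∧ z ∈ closure R' := by
  have hS : IsPreconnected (insert z R) :=
    hR.subset_closure (subset_insert _ _) (insert_subset hz subset_closure)
  obtain ⟨G₁, hG₁, hNG⟩ := comp_eq_inter h hS (isOpen_ball (x := z) (ε := ε)) (mem_insert _ _)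
    (mem_ball_self hε)
  set N := connectedComponentIn (insert z R ∩ ball z ε) z with hN
  have hzN : z ∈ N := mem_connectedComponentIn ⟨mem_insert _ _, mem_ball_self hε⟩
  have hzG₁ : z ∈ G₁ := by rw [hNG] at hzN; exact hzN.2
  have hNball : N ⊆ ball z ε := (connectedComponentIn_subset _ _).trans inter_subset_right
  obtain ⟨r, hrG, hrR⟩ := mem_closure_iff.1 hz G₁ hG₁ hzG₁
  obtain ⟨G₂, hG₂, hRG⟩ := comp_eq_inter h hR hG₁ hrR hrG
  set R' := connectedComponentIn (R ∩ G₁) r with hR'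
  have hR'sub : R' ⊆ R ∩ G₁ := connectedComponentIn_subset _ _
  have hR'N : R' ⊆ N := by
    rw [hNG]
    exact fun y hy => ⟨mem_insert_of_mem _ (hR'sub hy).1, (hR'sub hy).2⟩
  refine ⟨R', G₂, hG₂, hRG, isPreconnected_connectedComponentIn, hR'N.trans hNball, ?_⟩
  by_contra hzc
  have hrR' : r ∈ R' := mem_connectedComponentIn ⟨hrR, hrG⟩
  have hfull : N ⊆ R' := by
    refine clopen_full (G := G₂ \ {z}) isPreconnected_connectedComponentIn
      (hG₂.sdiff isClosed_singleton) ?_ ?_ ⟨r, hR'N hrR', ?_⟩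
    · rintro y ⟨hyN, hyG, hyz⟩
      rw [hNG] at hyN
      rcases hyN.1 with rfl | hyR
      · exact absurd rfl hyz
      · rw [hRG]; exact ⟨hyR, hyG⟩
    · rintro y ⟨hyN, hyc⟩
      have hyz : y ≠ z := by rintro rfl; exact hzc hyc
      rw [hNG] at hyN
      rcases hyN.1 with rfl | hyR
      · exact absurd rfl hyz
      · have : y ∈ R' :=
          closure_comp_inter (A := R ∩ G₁) (p := r) ⟨hrR, hrG⟩ hyc ⟨hyR, hyN.2⟩
        rw [hRG] at this
        exact ⟨this.2, hyz⟩
    · rw [hRG] at hrR'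
      exact ⟨hrR'.2, by rintro rfl; exact hzR hrR⟩
  exact hzR (hR'sub (hfull hzN)).1

theorem T1 (h : Hlc X) {K : Set X} (hK : IsPreconnected K) (hl : IsLocallyClosed K) {k z : X}
    (hk : k ∈ K) (hz : z ∈ closure K) (hzK : z ∉ K) :
    ∃ T, IsClosed T ∧ IsPreconnected T ∧ T ⊆ insert z K ∧ k ∈ T ∧ z ∈ T ∧
      IsPreconnected (T \ {z}) := by
  let St := {R : Set X // IsPreconnected R ∧ IsLocallyClosed R ∧ z ∈ closure R ∧ z ∉ R}
  have step : ∀ (n : ℕ) (R : St), ∃ R' : St, R'.1 ⊆ R.1 ∧ R'.1 ⊆ ball z (1 / (n + 1 : ℝ)) := by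
    rintro n ⟨R, h1, h2, h3, h4⟩
    obtain ⟨R', G, hG, rfl, h5, h6, h7⟩ := C1 h h1 h3 h4 (ε := 1 / (n + 1 : ℝ)) (by positivity)
    exact ⟨⟨R ∩ G, h5, h2.inter hG.isLocallyClosed, h7, fun hc => h4 hc.1⟩, inter_subset_left, h6⟩
  choose f hf1 hf2 using step
  let q : ℕ → St := fun n => Nat.rec ⟨K, hK, hl, hz, hzK⟩ (fun n R => f n R) n
  have hq0 : (q 0).1 = K := rfl
  have hqs : ∀ n, q (n + 1) = f n (q n) := fun n => rfl
  have hqsub : ∀ n, (q (n + 1)).1 ⊆ (q n).1 := fun n => by rw [hqs]; exact hf1 _ _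
  have hqK : ∀ n, (q n).1 ⊆ K := by
    intro n
    induction n with
    | zero => exact subset_rfl
    | succ n ih => exact (hqsub n).trans ih
  have hqb : ∀ n, (q (n + 1)).1 ⊆ ball z (1 / (n + 1 : ℝ)) := fun n => by rw [hqs]; exact hf2 _ _
  have hne : ∀ n, (q n).1.Nonempty := fun n => closure_nonempty_iff.1 ⟨z, (q n).2.2.2.1⟩
  choose y0 hy0 using hne
  let y : ℕ → X := fun n => if n = 0 then k else y0 n
  have hy : ∀ n, y n ∈ (q n).1 := by
    intro n
    by_cases hn : n = 0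
    · subst hn; simp only [y, if_true]; exact hk
    · simp only [y, hn, if_false]; exact hy0 n
  have hT : ∀ n, ∃ T, IsClosed T ∧ IsPreconnected T ∧ T ⊆ (q n).1 ∧ y n ∈ T ∧ y (n + 1) ∈ T :=
    fun n => T0 h (q n).2.1 (q n).2.2.1 (hy n) (hqsub n (hy (n + 1)))
  choose T hT1 hT2 hT3 hT4 hT5 using hT
  have hzT : ∀ n, z ∉ T n := fun n hc => hzK (hqK n (hT3 n hc))
  have hUp : IsPreconnected (⋃ n, T n) :=
    IsPreconnected.iUnion_of_chain hT2 fun n => ⟨y (n + 1), hT5 n, hT4 (n + 1)⟩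
  have hsmall : ∀ ε : ℝ, 0 < ε → ∃ N : ℕ, ∀ n, N ≤ n → T n ⊆ ball z ε := by
    intro ε hε
    obtain ⟨N, hN⟩ := exists_nat_one_div_lt hε
    refine ⟨N + 1, fun n hn => ?_⟩
    obtain ⟨m, rfl⟩ : ∃ m, n = m + 1 := ⟨n - 1, by omega⟩
    refine (hT3 _).trans ((hqb m).trans (ball_subset_ball ?_))
    have hNm : (N : ℝ) ≤ m := by exact_mod_cast (by omega : N ≤ m)
    calc 1 / (m + 1 : ℝ) ≤ 1 / (N + 1 : ℝ) := by
          apply one_div_le_one_div_of_le
          · positivity
          · linarith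
      _ ≤ ε := hN.le
  have hzc : z ∈ closure (⋃ n, T n) := by
    rw [Metric.mem_closure_iff]
    intro ε hε
    obtain ⟨N, hN⟩ := hsmall ε hε
    refine ⟨y N, mem_iUnion.2 ⟨N, hT4 N⟩, ?_⟩
    rw [dist_comm]
    exact hN N le_rfl (hT4 N)
  refine ⟨insert z (⋃ n, T n), ?_, hUp.subset_closure (subset_insert _ _)
    (insert_subset hzc subset_closure), ?_, mem_insert_of_mem _ (mem_iUnion.2 ⟨0, hT4 0⟩),
    mem_insert _ _, ?_⟩
  · rw [← isOpen_compl_iff, Metric.isOpen_iff]
    intro w hw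
    rw [mem_compl_iff, mem_insert_iff, not_or] at hw
    have hd : 0 < dist w z := dist_pos.2 hw.1
    obtain ⟨N, hN⟩ := hsmall (dist w z / 2) (by linarith)
    have hcl : IsClosed (⋃ n ∈ Finset.range N, T n) := by
      apply Set.Finite.isClosed_biUnion (Finset.finite_toSet _)
      intro n _
      exact hT1 n
    have hwn : w ∉ ⋃ n ∈ Finset.range N, T n := by
      intro hc
      simp only [mem_iUnion] at hc
      obtain ⟨n, _, hn⟩ := hc
      exact hw.2 (mem_iUnion.2 ⟨n, hn⟩)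
    obtain ⟨δ, hδ, hδs⟩ := Metric.isOpen_iff.1 hcl.isOpen_compl w hwn
    refine ⟨min δ (dist w z / 2), lt_min hδ (by linarith), ?_⟩
    intro v hv hvT
    rw [mem_ball] at hv
    have hv1 : dist v w < δ := lt_of_lt_of_le hv (min_le_left _ _)
    have hv2 : dist v w < dist w z / 2 := lt_of_lt_of_le hv (min_le_right _ _)
    rcases mem_insert_iff.1 hvT with rfl | hvT
    · rw [dist_comm] at hv2; linarith
    · obtain ⟨n, hn⟩ := mem_iUnion.1 hvT
      by_cases hnN : n < N
      · refine hδs hv1 ?_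
        simp only [mem_iUnion]
        exact ⟨n, Finset.mem_range.2 hnN, hn⟩
      · have := hN n (by omega) hn
        rw [mem_ball] at this
        have h3 := dist_triangle w v z
        rw [dist_comm w v] at h3
        linarith
  · apply insert_subset_insert
    exact iUnion_subset fun n => (hT3 n).trans (hqK n)
  · have : insert z (⋃ n, T n) \ {z} = ⋃ n, T n := by
      ext w
      simp only [Set.mem_sdiff, mem_insert_iff, mem_singleton_iff]
      constructor
      · rintro ⟨h1 | h1, h2⟩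
        · exact absurd h1 h2
        · exact h1
      · intro hw
        refine ⟨Or.inr hw, ?_⟩
        rintro rfl
        obtain ⟨n, hn⟩ := mem_iUnion.1 hw
        exact hzT n hn
    rw [this]
    exact hUp

/-- a component of `R \ (E₁ ∪ E₂)` touching both -/
theorem lemK (h : Hlc X) {R E₁ E₂ : Set X} (hR : IsPreconnected R) (hE₁ : IsClosed E₁)
    (hE₂ : IsClosed E₂) (hd : R ∩ E₁ ∩ E₂ = ∅) (h1 : (R ∩ E₁).Nonempty) (h2 : (R ∩ E₂).Nonempty) :
    ∃ y ∈ R, y ∉ E₁ ∧ y ∉ E₂ ∧
      (closure (connectedComponentIn (R ∩ (E₁ ∪ E₂)ᶜ) y) ∩ (R ∩ E₁)).Nonempty ∧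
      (closure (connectedComponentIn (R ∩ (E₁ ∪ E₂)ᶜ) y) ∩ (R ∩ E₂)).Nonempty := by
  by_contra hcon
  push Not at hcon
  set C : X → Set X := fun y => connectedComponentIn (R ∩ (E₁ ∪ E₂)ᶜ) y with hC
  have hopen : IsOpen (E₁ ∪ E₂)ᶜ := (hE₁.union hE₂).isOpen_compl
  -- touching lemma
  have touch : ∀ F F' : Set X, IsClosed F → IsClosed F' → R ∩ F ∩ F' = ∅ → F ∪ F' = E₁ ∪ E₂ →
      ∀ e ∈ R, e ∈ F → ∃ G : Set X, IsOpen G ∧ e ∈ G ∧ ∀ y ∈ R ∩ G, y ∉ F' ∧
        (y ∉ F → (closure (C y) ∩ (R ∩ F)).Nonempty) := by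
    intro F F' hF hF' hFF' hU e heR heF
    have heF' : e ∉ F' := fun hc => by
      have : e ∈ R ∩ F ∩ F' := ⟨⟨heR, heF⟩, hc⟩
      rw [hFF'] at this; exact this
    obtain ⟨G, hG, hNG⟩ := comp_eq_inter h hR hF'.isOpen_compl heR heF'
    have heN : e ∈ connectedComponentIn (R ∩ F'ᶜ) e := mem_connectedComponentIn ⟨heR, heF'⟩
    refine ⟨G, hG, by rw [hNG] at heN; exact heN.2, ?_⟩
    rintro y ⟨hyR, hyG⟩
    have hyN : y ∈ connectedComponentIn (R ∩ F'ᶜ) e := by rw [hNG]; exact ⟨hyR, hyG⟩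
    have hyF' : y ∉ F' := (connectedComponentIn_subset _ _ hyN).2
    refine ⟨hyF', fun hyF => ?_⟩
    by_contra hemp
    rw [not_nonempty_iff_eq_empty] at hemp
    have hyU : y ∈ (E₁ ∪ E₂)ᶜ := by
      rw [← hU]; rintro (hc | hc)
      · exact hyF hc
      · exact hyF' hc
    obtain ⟨Gy, hGy, hCG⟩ := comp_eq_inter h hR hopen hyR hyU
    have hyC : y ∈ C y := mem_connectedComponentIn ⟨hyR, hyU⟩
    have hfull : connectedComponentIn (R ∩ F'ᶜ) e ⊆ C y := by
      refine clopen_full isPreconnected_connectedComponentIn hGy ?_ ?_ ⟨y, hyN, ?_⟩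
      · rintro w ⟨hw, hwG⟩
        simp only [hC]
        rw [hCG]
        exact ⟨(connectedComponentIn_subset _ _ hw).1, hwG⟩
      · rintro w ⟨hw, hwc⟩
        have hwR := (connectedComponentIn_subset _ _ hw).1
        have hwF' := (connectedComponentIn_subset _ _ hw).2
        have hwF : w ∉ F := fun hc => by
          have : w ∈ closure (C y) ∩ (R ∩ F) := ⟨hwc, hwR, hc⟩
          rw [hemp] at this; exact this
        have hwU : w ∈ (E₁ ∪ E₂)ᶜ := by
          rw [← hU]; rintro (hc | hc)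
          · exact hwF hc
          · exact hwF' hc
        have := closure_comp_inter (A := R ∩ (E₁ ∪ E₂)ᶜ) (p := y) ⟨hyR, hyU⟩ hwc ⟨hwR, hwU⟩
        rw [hCG] at this
        exact this.2
      · simp only [hC] at hyC; rw [hCG] at hyC; exact hyC.2
    have heC : e ∈ C y := hfull heN
    have : e ∈ closure (C y) ∩ (R ∩ F) := ⟨subset_closure heC, heR, heF⟩
    rw [hemp] at this; exact this
  have hd' : R ∩ E₂ ∩ E₁ = ∅ := by
    rw [← hd]; ext w; simp only [mem_inter_iff]; tauto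
  set Q : X → Prop := fun y => y ∈ E₁ ∨ (y ∉ E₂ ∧ (closure (C y) ∩ (R ∩ E₁)).Nonempty) with hQ
  obtain ⟨a, haR, haE⟩ := h1
  obtain ⟨b, hbR, hbE⟩ := h2
  have hbE1 : b ∉ E₁ := fun hc => by
    have : b ∈ R ∩ E₁ ∩ E₂ := ⟨⟨hbR, hc⟩, hbE⟩
    rw [hd] at this; exact this
  have key : Q a ↔ Q b := by
    refine hR.induction₂' (fun x y => (Q x ↔ Q y)) ?_ ?_ haR hbR
    · intro e heR
      by_cases he1 : e ∈ E₁
      · obtain ⟨G, hG, heG, hGy⟩ := touch E₁ E₂ hE₁ hE₂ hd rfl e heR he1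
        rw [eventually_nhdsWithin_iff]
        filter_upwards [hG.mem_nhds heG] with y hy hyR
        obtain ⟨hy2, hyt⟩ := hGy y ⟨hyR, hy⟩
        have hQe : Q e := Or.inl he1
        have hQy : Q y := by
          by_cases hy1 : y ∈ E₁
          · exact Or.inl hy1
          · exact Or.inr ⟨hy2, hyt hy1⟩
        exact ⟨⟨fun _ => hQy, fun _ => hQe⟩, ⟨fun _ => hQe, fun _ => hQy⟩⟩
      by_cases he2 : e ∈ E₂
      · obtain ⟨G, hG, heG, hGy⟩ := touch E₂ E₁ hE₂ hE₁ hd' (union_comm _ _) e heR he2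
        rw [eventually_nhdsWithin_iff]
        filter_upwards [hG.mem_nhds heG] with y hy hyR
        obtain ⟨hy1, hyt⟩ := hGy y ⟨hyR, hy⟩
        have hQe : ¬ Q e := by
          rintro (hc | ⟨hc, _⟩)
          · exact he1 hc
          · exact hc he2
        have hQy : ¬ Q y := by
          rintro (hc | ⟨hc, hc2⟩)
          · exact hy1 hc
          · have h3 := hyt hc
            have h4 := hcon y hyR hy1 hc hc2
            rw [h4] at h3
            exact not_nonempty_empty h3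
        exact ⟨⟨fun hc => absurd hc hQe, fun hc => absurd hc hQy⟩,
          ⟨fun hc => absurd hc hQy, fun hc => absurd hc hQe⟩⟩
      · have heU : e ∈ (E₁ ∪ E₂)ᶜ := by
          rintro (hc | hc)
          · exact he1 hc
          · exact he2 hc
        obtain ⟨G, hG, hCG⟩ := comp_eq_inter h hR hopen heR heU
        have heC : e ∈ C e := mem_connectedComponentIn ⟨heR, heU⟩
        have heG : e ∈ G := by simp only [hC] at heC; rw [hCG] at heC; exact heC.2
        rw [eventually_nhdsWithin_iff]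
        filter_upwards [hG.mem_nhds heG] with y hy hyR
        have hyC : y ∈ C e := by simp only [hC]; rw [hCG]; exact ⟨hyR, hy⟩
        have hyU := (connectedComponentIn_subset _ _ hyC).2
        have hCe : C e = C y := connectedComponentIn_eq hyC
        have hy1 : y ∉ E₁ := fun hc => hyU (Or.inl hc)
        have hy2 : y ∉ E₂ := fun hc => hyU (Or.inr hc)
        have : Q e ↔ Q y := by
          simp only [hQ]
          rw [hCe]
          simp only [he1, he2, hy1, hy2]
        exact ⟨this, this.symm⟩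
    · intro x y z _ _ _ h1 h2
      exact h1.trans h2
  have hQa : Q a := Or.inl haE
  rcases key.1 hQa with hc | ⟨hc, _⟩
  · exact hbE1 hc
  · exact hc hbE

theorem trunc (h : Hlc X) {B₀ F : Set X} (hB : IsClosed B₀) (hBp : IsPreconnected B₀)
    (hF : IsClosed F) {b : X} (hb : b ∈ B₀) (hbF : b ∉ F) (hne : (B₀ ∩ F).Nonempty) :
    ∃ B' w, IsClosed B' ∧ IsPreconnected B' ∧ B' ⊆ B₀ ∧ b ∈ B' ∧ w ∈ B' ∧ B' ∩ F = {w} ∧
      IsPreconnected (B' \ {w}) := by
  obtain ⟨G, hG, hKG⟩ := comp_eq_inter h hBp hF.isOpen_compl hb hbF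
  set K := connectedComponentIn (B₀ ∩ Fᶜ) b with hK
  have hbK : b ∈ K := mem_connectedComponentIn ⟨hb, hbF⟩
  have hKsub : K ⊆ B₀ ∩ Fᶜ := connectedComponentIn_subset _ _
  obtain ⟨w, hwK, hwF⟩ : (closure K ∩ F).Nonempty := by
    by_contra hemp
    rw [not_nonempty_iff_eq_empty] at hemp
    have hfull : B₀ ⊆ K := by
      refine clopen_full hBp hG ?_ ?_ ⟨b, hb, ?_⟩
      · rw [hKG]
      · rintro n ⟨hn, hnc⟩
        have hnF : n ∉ F := fun hc => by
          have : n ∈ closure K ∩ F := ⟨hnc, hc⟩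
          rw [hemp] at this; exact this
        have := closure_comp_inter (A := B₀ ∩ Fᶜ) (p := b) ⟨hb, hbF⟩ hnc ⟨hn, hnF⟩
        rw [← hK, hKG] at this
        exact this.2
      · rw [hKG] at hbK; exact hbK.2
    obtain ⟨f, hf, hfF⟩ := hne
    exact (hKsub (hfull hf)).2 hfF
  have hwK' : w ∉ K := fun hc => (hKsub hc).2 hwF
  have hlc : IsLocallyClosed K := by
    rw [hKG]; exact hB.isLocallyClosed.inter hG.isLocallyClosed
  obtain ⟨T, t1, t2, t3, t4, t5, t6⟩ := T1 h (K := K) isPreconnected_connectedComponentIn hlc hbK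
    hwK hwK'
  refine ⟨T, w, t1, t2, ?_, t4, t5, ?_, t6⟩
  · refine t3.trans (insert_subset ?_ fun y hy => (hKsub hy).1)
    exact closure_minimal (fun y hy => (hKsub hy).1) hB hwK
  · apply subset_antisymm
    · rintro y ⟨hy, hyF⟩
      rcases t3 hy with rfl | hyK
      · rfl
      · exact absurd hyF (hKsub hyK).2
    · rintro y rfl
      exact ⟨t5, hwF⟩

theorem two (h : Hlc X) {R S F : Set X} (hR : IsClosed R) (hRp : IsPreconnected R)
    (hS : IsClosed S) (hF : IsClosed F) (hd : R ∩ S ∩ F = ∅) (h1 : (R ∩ S).Nonempty)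
    (h2 : (R ∩ F).Nonempty) :
    ∃ T z z', IsClosed T ∧ IsPreconnected T ∧ T ⊆ R ∧ T ∩ S = {z} ∧ T ∩ F = {z'} ∧
      IsPreconnected (T \ {z'}) := by
  obtain ⟨k, hkR, hkS, hkF, ⟨z, hzK, hzR, hzS⟩, ⟨z', hzK', hzR', hzF'⟩⟩ :=
    lemK h hRp hS hF hd h1 h2
  have hkU : k ∈ (S ∪ F)ᶜ := by
    rintro (hc | hc)
    · exact hkS hc
    · exact hkF hc
  obtain ⟨G, hG, hKG⟩ := comp_eq_inter h hRp (hS.union hF).isOpen_compl hkR hkU
  set K := connectedComponentIn (R ∩ (S ∪ F)ᶜ) k with hK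
  have hkK : k ∈ K := mem_connectedComponentIn ⟨hkR, hkU⟩
  have hKsub : K ⊆ R ∩ (S ∪ F)ᶜ := connectedComponentIn_subset _ _
  have hlc : IsLocallyClosed K := by
    rw [hKG]; exact hR.isLocallyClosed.inter hG.isLocallyClosed
  have hzK2 : z ∉ K := fun hc => (hKsub hc).2 (Or.inl hzS)
  have hzK2' : z' ∉ K := fun hc => (hKsub hc).2 (Or.inr hzF')
  have hzF : z ∉ F := fun hc => by
    have : z ∈ R ∩ S ∩ F := ⟨⟨hzR, hzS⟩, hc⟩
    rw [hd] at this; exact this
  have hzS' : z' ∉ S := fun hc => by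
    have : z' ∈ R ∩ S ∩ F := ⟨⟨hzR', hc⟩, hzF'⟩
    rw [hd] at this; exact this
  obtain ⟨A, a1, a2, a3, a4, a5, -⟩ := T1 h (K := K) isPreconnected_connectedComponentIn hlc hkK
    hzK hzK2
  obtain ⟨B, b1, b2, b3, b4, b5, b6⟩ := T1 h (K := K) isPreconnected_connectedComponentIn hlc hkK
    hzK' hzK2'
  have hKR : K ⊆ R := fun y hy => (hKsub hy).1
  refine ⟨A ∪ B, z, z', a1.union b1, a2.union k a4 b4 b2, ?_, ?_, ?_, ?_⟩
  · exact union_subset (a3.trans (insert_subset hzR hKR)) (b3.trans (insert_subset hzR' hKR))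
  · apply subset_antisymm
    · rintro y ⟨hy | hy, hyS⟩
      · rcases a3 hy with rfl | hyK
        · rfl
        · exact absurd (Or.inl hyS) (hKsub hyK).2
      · rcases b3 hy with rfl | hyK
        · exact absurd hyS hzS'
        · exact absurd (Or.inl hyS) (hKsub hyK).2
    · rintro y rfl
      exact ⟨Or.inl a5, hzS⟩
  · apply subset_antisymm
    · rintro y ⟨hy | hy, hyF⟩
      · rcases a3 hy with rfl | hyK
        · exact absurd hyF hzF
        · exact absurd (Or.inr hyF) (hKsub hyK).2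
      · rcases b3 hy with rfl | hyK
        · rfl
        · exact absurd (Or.inr hyF) (hKsub hyK).2
    · rintro y rfl
      exact ⟨Or.inr b5, hzF'⟩
  · have hzA : z' ∉ A := by
      intro hc
      rcases a3 hc with rfl | hyK
      · exact hzF hzF'
      · exact hzK2' hyK
    have : (A ∪ B) \ {z'} = A ∪ (B \ {z'}) := by
      rw [union_sdiff_distrib, sdiff_singleton_eq_self hzA]
    rw [this]
    refine a2.union k a4 ⟨b4, ?_⟩ b6
    rintro rfl
    exact hzK2' hkK

end Pool.Agent.H318.HLC
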