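import Pool.Agent.H318.HLC.Basic

set_option autoImplicit false

namespace Pool.Agent.H318.HLC

open Set Topology Metric Filter

variable {X : Type*} [MetricSpace X]

/-- the union of the links from `j` on -/
def Tg (L : ℕ → Set X) (n j : ℕ) : Set X := ⋃ i ∈ Finset.Icc j (n + 1), L i

theorem mem_Tg {L : ℕ → Set X} {n j : ℕ} {y : X} :
    y ∈ Tg L n j ↔ ∃ i, j ≤ i ∧ i ≤ n + 1 ∧ y ∈ L i := by
  simp only [Tg, mem_iUnion, Finset.mem_Icc, exists_prop]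
  constructor
  · rintro ⟨i, ⟨h1, h2⟩, h3⟩; exact ⟨i, h1, h2, h3⟩
  · rintro ⟨i, h1, h2, h3⟩; exact ⟨i, ⟨h1, h2⟩, h3⟩

theorem Tg_anti {L : ℕ → Set X} {n j j' : ℕ} (hj : j ≤ j') : Tg L n j' ⊆ Tg L n j := by
  intro y hy
  obtain ⟨i, h1, h2, h3⟩ := mem_Tg.1 hy
  exact mem_Tg.2 ⟨i, hj.trans h1, h2, h3⟩

/-- a chain of closed connected links -/
structure Links (L : ℕ → Set X) (n : ℕ) : Prop where
  cl : ∀ i ≤ n + 1, IsClosed (L i)
  pc : ∀ i ≤ n + 1, IsPreconnected (L i)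
  adj : ∀ i ≤ n, (L i ∩ L (i + 1)).Nonempty
  far : ∀ i j, i + 2 ≤ j → j ≤ n + 1 → L i ∩ L j = ∅

theorem Links.Tg_closed {L : ℕ → Set X} {n : ℕ} (hL : Links L n) (j : ℕ) : IsClosed (Tg L n j) := by
  apply Set.Finite.isClosed_biUnion (Finset.finite_toSet _)
  intro i hi
  exact hL.cl i (Finset.mem_Icc.1 (Finset.mem_coe.1 hi)).2

theorem Links.zero_Tg {L : ℕ → Set X} {n : ℕ} (hL : Links L n) {j : ℕ} (hj : 2 ≤ j) {y : X}
    (hy : y ∈ L 0) : y ∉ Tg L n j := by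
  intro hc
  obtain ⟨i, h1, h2, h3⟩ := mem_Tg.1 hc
  have : y ∈ L 0 ∩ L i := ⟨hy, h3⟩
  rw [hL.far 0 i (by omega) h2] at this
  exact this

/-- a channel from `L 0` arriving at the link `J` -/
structure Ch (L : ℕ → Set X) (n J : ℕ) (A : Set X) (z : X) : Prop where
  cl : IsClosed A
  pc : IsPreconnected A
  mem : z ∈ A
  inter : A ∩ Tg L n J = {z}
  memL : z ∈ L J
  pc' : IsPreconnected (A \ {z})
  start : (A ∩ L 0).Nonempty

theorem extend (h : Hlc X) {L : ℕ → Set X} {n : ℕ} (hL : Links L n) {J : ℕ}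
    {B₁ : Set X} (hB₁ : IsClosed B₁) (hB₁p : IsPreconnected B₁) (hLB : L J ⊆ B₁) {b : X}
    (hb : b ∈ B₁) (hb0 : b ∈ L 0) (hBT : B₁ ∩ Tg L n (J + 1) ⊆ L J) {J' : ℕ} (hJ1 : 1 ≤ J)
    (hJJ' : J < J') (hJ'n : J' ≤ n + 1) :
    ∃ B' w, Ch L n J' B' w ∧ B' ⊆ B₁ ∪ ⋃ i ∈ Finset.Ico (J + 1) J', L i := by
  set U : ℕ → Set X := fun m => B₁ ∪ ⋃ i ∈ Finset.Ico (J + 1) m, L i with hU
  have hUs : ∀ m, J + 1 ≤ m → U (m + 1) = U m ∪ L m := by
    intro m hm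
    simp only [hU]
    ext y
    simp only [mem_union, mem_iUnion, Finset.mem_Ico, exists_prop]
    constructor
    · rintro (h1 | ⟨i, ⟨h1, h2⟩, h3⟩)
      · exact Or.inl (Or.inl h1)
      · by_cases him : i = m
        · subst him; exact Or.inr h3
        · exact Or.inl (Or.inr ⟨i, ⟨h1, by omega⟩, h3⟩)
    · rintro ((h1 | ⟨i, ⟨h1, h2⟩, h3⟩) | h3)
      · exact Or.inl h1
      · exact Or.inr ⟨i, ⟨h1, by omega⟩, h3⟩
      · exact Or.inr ⟨m, ⟨hm, by omega⟩, h3⟩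
  have hlast : ∀ m, J + 1 ≤ m → L (m - 1) ⊆ U m := by
    intro m hm y hy
    simp only [hU]
    by_cases hmJ : m = J + 1
    · subst hmJ; exact Or.inl (hLB hy)
    · right
      simp only [mem_iUnion, Finset.mem_Ico, exists_prop]
      exact ⟨m - 1, ⟨by omega, by omega⟩, hy⟩
  have hUp : ∀ m, J + 1 ≤ m → m ≤ n + 2 → IsPreconnected (U m) := by
    intro m hm
    induction m, hm using Nat.le_induction with
    | base =>
      intro _
      have : U (J + 1) = B₁ := by simp [hU]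
      rw [this]; exact hB₁p
    | succ m hm ih =>
      intro hmn
      rw [hUs m hm]
      obtain ⟨y, hy1, hy2⟩ := hL.adj (m - 1) (by omega)
      rw [show m - 1 + 1 = m by omega] at hy2
      exact (ih (by omega)).union y (hlast m hm hy1) hy2 (hL.pc m (by omega))
  have hUc : IsClosed (U J') := by
    simp only [hU]
    refine hB₁.union (Set.Finite.isClosed_biUnion (Finset.finite_toSet _) fun i hi => ?_)
    have := Finset.mem_Ico.1 (Finset.mem_coe.1 hi)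
    exact hL.cl i (by omega)
  obtain ⟨y, hy1, hy2⟩ := hL.adj (J' - 1) (by omega)
  rw [show J' - 1 + 1 = J' by omega] at hy2
  obtain ⟨B', w, c1, c2, c3, c4, c5, c6, c7⟩ := trunc h (B₀ := U J') (F := Tg L n J') hUc
    (hUp J' (by omega) (by omega)) (hL.Tg_closed J') (b := b) (Or.inl hb)
    (hL.zero_Tg (by omega) hb0) ⟨y, hlast J' (by omega) hy1, mem_Tg.2 ⟨J', le_rfl, hJ'n, hy2⟩⟩
  refine ⟨B', w, ⟨c1, c2, c5, c6, ?_, c7, ⟨b, c4, hb0⟩⟩, c3⟩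
  have hwT : w ∈ Tg L n J' := by
    have : w ∈ B' ∩ Tg L n J' := by rw [c6]; rfl
    exact this.2
  obtain ⟨j, hj1, hj2, hj3⟩ := mem_Tg.1 hwT
  have hnf : ∀ i, w ∈ L i → ¬ (i + 2 ≤ j) := by
    intro i hi hij
    have : w ∈ L i ∩ L j := ⟨hi, hj3⟩
    rw [hL.far i j hij hj2] at this
    exact this
  rcases c3 c5 with hwB | hwU
  · have hwJ : w ∈ L J := hBT ⟨hwB, Tg_anti (by omega) hwT⟩
    have := hnf J hwJ
    have : j = J' := by omega
    subst this; exact hj3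
  · simp only [mem_iUnion, Finset.mem_Ico, exists_prop] at hwU
    obtain ⟨i, ⟨hi1, hi2⟩, hi3⟩ := hwU
    have := hnf i hi3
    have : j = J' := by omega
    subst this; exact hj3

theorem stepAux (h : Hlc X) {L : ℕ → Set X} {n : ℕ} (hL : Links L n) {J : ℕ}
    {B₁ : Set X} (hB₁ : IsClosed B₁) (hB₁p : IsPreconnected B₁) (hLB : L J ⊆ B₁) {b : X}
    (hb : b ∈ B₁) (hb0 : b ∈ L 0) (hBT : B₁ ∩ Tg L n (J + 1) ⊆ L J) (hJ1 : 1 ≤ J)
    {A₁ T : Set X} {z z' : X} (hA : IsClosed A₁) (hAp : IsPreconnected A₁)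
    (hAT : A₁ ∩ Tg L n (J + 1) = ∅) (hA0 : (A₁ ∩ L 0).Nonempty) (hzA : z ∈ A₁)
    (hT : IsClosed T) (hTp : IsPreconnected T) (hTT : T ∩ Tg L n (J + 1) = {z'})
    (hTp' : IsPreconnected (T \ {z'})) (hzT : z ∈ T) (hAB : A₁ ∩ B₁ = ∅) (hTB : T ∩ B₁ = ∅) :
    ∃ J' A' B' w w', J < J' ∧ J' ≤ n + 1 ∧ Ch L n J' A' w ∧ Ch L n J' B' w' ∧ A' ∩ B' = ∅ := by
  classical
  have hz' : z' ∈ T ∩ Tg L n (J + 1) := by rw [hTT]; rfl
  have hex : ∃ i, J + 1 ≤ i ∧ i ≤ n + 1 ∧ z' ∈ L i := mem_Tg.1 hz'.2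
  obtain ⟨hJ1', hJ2', hJ3'⟩ := Nat.find_spec hex
  have hmin : ∀ i, J + 1 ≤ i → i < Nat.find hex → z' ∉ L i := by
    intro i hi1 hi2 hc
    exact Nat.find_min hex hi2 ⟨hi1, by omega, hc⟩
  set J' := Nat.find hex with hJ'
  obtain ⟨B', w', hB', hB's⟩ := extend h hL hB₁ hB₁p hLB hb hb0 hBT hJ1 (J' := J') (by omega) hJ2'
  have hzz' : z ≠ z' := by
    rintro rfl
    have : z ∈ A₁ ∩ Tg L n (J + 1) := ⟨hzA, hz'.2⟩
    rw [hAT] at this; exact this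
  have hz'A : z' ∉ A₁ := fun hc => by
    have : z' ∈ A₁ ∩ Tg L n (J + 1) := ⟨hc, hz'.2⟩
    rw [hAT] at this; exact this
  refine ⟨J', A₁ ∪ T, B', z', w', by omega, hJ2', ⟨hA.union hT, hAp.union z hzA hzT hTp,
    Or.inr hz'.1, ?_, hJ3', ?_, ?_⟩, hB', ?_⟩
  · apply subset_antisymm
    · rintro y ⟨hy | hy, hyT⟩
      · exfalso
        have : y ∈ A₁ ∩ Tg L n (J + 1) := ⟨hy, Tg_anti (by omega) hyT⟩
        rw [hAT] at this; exact this
      · have : y ∈ T ∩ Tg L n (J + 1) := ⟨hy, Tg_anti (by omega) hyT⟩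
        rw [hTT] at this; exact this
    · rintro y rfl
      exact ⟨Or.inr hz'.1, mem_Tg.2 ⟨J', le_rfl, hJ2', hJ3'⟩⟩
  · have : (A₁ ∪ T) \ {z'} = A₁ ∪ (T \ {z'}) := by
      rw [union_sdiff_distrib, sdiff_singleton_eq_self hz'A]
    rw [this]
    exact hAp.union z hzA ⟨hzT, hzz'⟩ hTp'
  · obtain ⟨a, ha1, ha2⟩ := hA0
    exact ⟨a, Or.inl ha1, ha2⟩
  · rw [eq_empty_iff_forall_notMem]
    rintro y ⟨hy, hyB⟩
    rcases hB's hyB with hyB1 | hyU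
    · rcases hy with hy | hy
      · have : y ∈ A₁ ∩ B₁ := ⟨hy, hyB1⟩
        rw [hAB] at this; exact this
      · have : y ∈ T ∩ B₁ := ⟨hy, hyB1⟩
        rw [hTB] at this; exact this
    · simp only [mem_iUnion, Finset.mem_Ico, exists_prop] at hyU
      obtain ⟨i, ⟨hi1, hi2⟩, hi3⟩ := hyU
      have hyT : y ∈ Tg L n (J + 1) := mem_Tg.2 ⟨i, hi1, by omega, hi3⟩
      rcases hy with hy | hy
      · have : y ∈ A₁ ∩ Tg L n (J + 1) := ⟨hy, hyT⟩
        rw [hAT] at this; exact this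
      · have : y ∈ T ∩ Tg L n (J + 1) := ⟨hy, hyT⟩
        rw [hTT] at this
        have hyz : y = z' := this
        subst hyz
        exact hmin i hi1 hi2 hi3

/-- avoiding the link `J` -/
def Good (L0 L1 : Set X) (M : Set X) : Prop :=
  ∃ R, IsClosed R ∧ IsPreconnected R ∧ R ∩ M = ∅ ∧ (R ∩ L0).Nonempty ∧ (R ∩ L1).Nonempty

theorem base (h : Hlc X) {L : ℕ → Set X} {n : ℕ} (hL : Links L n) (hn : 1 ≤ n)
    (hG : Good (L 0) (L (n + 1)) (L 1)) :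
    ∃ J' A' B' w w', 2 ≤ J' ∧ J' ≤ n + 1 ∧ Ch L n J' A' w ∧ Ch L n J' B' w' ∧ A' ∩ B' = ∅ := by
  obtain ⟨R, r1, r2, r3, r4, r5⟩ := hG
  obtain ⟨T, z, z', t1, t2, t3, t4, t5, t6⟩ := two h (R := R) (S := L 0) (F := Tg L n 2) r1 r2
    (hL.cl 0 (by omega)) (hL.Tg_closed 2) (by
      rw [eq_empty_iff_forall_notMem]
      rintro y ⟨⟨_, hy⟩, hy2⟩
      exact hL.zero_Tg le_rfl hy hy2) r4 (by
      obtain ⟨y, hy1, hy2⟩ := r5
      exact ⟨y, hy1, mem_Tg.2 ⟨n + 1, by omega, le_rfl, hy2⟩⟩)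
  have hz : z ∈ T ∩ L 0 := by rw [t4]; rfl
  obtain ⟨b, hb0, hb1⟩ := hL.adj 0 (by omega)
  have hT1 : T ∩ L 1 = ∅ := by
    rw [eq_empty_iff_forall_notMem]
    rintro y ⟨hy1, hy2⟩
    have : y ∈ R ∩ L 1 := ⟨t3 hy1, hy2⟩
    rw [r3] at this; exact this
  obtain ⟨J', A', B', w, w', h1, h2, h3, h4, h5⟩ := stepAux h hL (J := 1) (B₁ := L 1)
    (hL.cl 1 (by omega)) (hL.pc 1 (by omega)) subset_rfl (b := b) hb1 hb0
    (fun y hy => hy.1) le_rfl (A₁ := {z}) (T := T) (z := z) (z' := z') isClosed_singleton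
    isPreconnected_singleton (by
      rw [eq_empty_iff_forall_notMem]
      rintro y ⟨rfl, hy2⟩
      exact hL.zero_Tg le_rfl hz.2 hy2) ⟨z, rfl, hz.2⟩ rfl t1 t2 t5 t6 hz.1 (by
      rw [eq_empty_iff_forall_notMem]
      rintro y ⟨rfl, hy2⟩
      have : y ∈ T ∩ L 1 := ⟨hz.1, hy2⟩
      rw [hT1] at this; exact this) hT1
  exact ⟨J', A', B', w, w', by omega, h2, h3, h4, h5⟩

theorem step (h : Hlc X) {L : ℕ → Set X} {n : ℕ} (hL : Links L n) {J : ℕ} (hJ : 2 ≤ J)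
    (hJn : J ≤ n) (hG : Good (L 0) (L (n + 1)) (L J)) {A B : Set X} {zA zB : X}
    (hA : Ch L n J A zA) (hB : Ch L n J B zB) (hAB : A ∩ B = ∅) :
    ∃ J' A' B' w w', J < J' ∧ J' ≤ n + 1 ∧ Ch L n J' A' w ∧ Ch L n J' B' w' ∧ A' ∩ B' = ∅ := by
  obtain ⟨R, r1, r2, r3, r4, r5⟩ := hG
  have hRJ : ∀ y, y ∈ R → y ∉ L J := fun y hy hc => by
    have : y ∈ R ∩ L J := ⟨hy, hc⟩
    rw [r3] at this; exact this
  obtain ⟨T, z, z', t1, t2, t3, t4, t5, t6⟩ := two h (R := R) (S := L 0 ∪ A ∪ B)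
    (F := Tg L n (J + 1)) r1 r2 (((hL.cl 0 (by omega)).union hA.cl).union hB.cl)
    (hL.Tg_closed _) (by
      rw [eq_empty_iff_forall_notMem]
      rintro y ⟨⟨hyR, (hy | hy) | hy⟩, hy2⟩
      · exact hL.zero_Tg (by omega) hy hy2
      · have : y ∈ A ∩ Tg L n J := ⟨hy, Tg_anti (by omega) hy2⟩
        rw [hA.inter] at this
        have hyz : y = zA := this
        rw [hyz] at hyR
        exact hRJ _ hyR hA.memL
      · have : y ∈ B ∩ Tg L n J := ⟨hy, Tg_anti (by omega) hy2⟩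
        rw [hB.inter] at this
        have hyz : y = zB := this
        rw [hyz] at hyR
        exact hRJ _ hyR hB.memL) (by
      obtain ⟨y, hy1, hy2⟩ := r4
      exact ⟨y, hy1, Or.inl (Or.inl hy2)⟩) (by
      obtain ⟨y, hy1, hy2⟩ := r5
      exact ⟨y, hy1, mem_Tg.2 ⟨n + 1, by omega, le_rfl, hy2⟩⟩)
  have hz : z ∈ T ∩ (L 0 ∪ A ∪ B) := by rw [t4]; rfl
  have hzJ : z ∉ L J := hRJ z (t3 hz.1)
  have hTz : ∀ y, y ∈ T → y ∈ L 0 ∪ A ∪ B → y = z := fun y h1 h2 => by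
    have : y ∈ T ∩ (L 0 ∪ A ∪ B) := ⟨h1, h2⟩
    rw [t4] at this; exact this
  -- rerouting through a channel
  have reroute : ∀ (A B : Set X) (zA zB : X), Ch L n J A zA → Ch L n J B zB → A ∩ B = ∅ →
      z ∈ A → T ∩ B = ∅ →
      ∃ J' A' B' w w', J < J' ∧ J' ≤ n + 1 ∧ Ch L n J' A' w ∧ Ch L n J' B' w' ∧ A' ∩ B' = ∅ := by
    intro A B zA zB hA hB hAB hzA hTB
    obtain ⟨a, haA, ha0⟩ := hA.start
    have haz : a ≠ zA := by
      rintro rfl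
      have : a ∈ A ∩ Tg L n J := by rw [hA.inter]; rfl
      exact hL.zero_Tg hJ ha0 this.2
    have hzzA : z ≠ zA := by
      rintro rfl
      exact hzJ hA.memL
    obtain ⟨A₁, p1, p2, p3, p4, p5⟩ := T0 h (K := A \ {zA}) hA.pc'
      (hA.cl.isLocallyClosed.inter isClosed_singleton.isOpen_compl.isLocallyClosed)
      (a := a) (b := z) ⟨haA, haz⟩ ⟨hzA, hzzA⟩
    have hA1T : ∀ y, y ∈ A₁ → y ∉ Tg L n J := fun y hy hc => by
      have : y ∈ A ∩ Tg L n J := ⟨(p3 hy).1, hc⟩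
      rw [hA.inter] at this
      exact (p3 hy).2 this
    obtain ⟨b, hbB, hb0⟩ := hB.start
    refine stepAux h hL (J := J) (B₁ := B ∪ L J) (hB.cl.union (hL.cl J (by omega)))
      (hB.pc.union zB hB.mem hB.memL (hL.pc J (by omega))) subset_union_right (b := b)
      (Or.inl hbB) hb0 ?_ (by omega) (A₁ := A₁) (T := T) (z := z) (z' := z') p1 p2 ?_
      ⟨a, p4, ha0⟩ p5 t1 t2 t5 t6 hz.1 ?_ ?_
    · rintro y ⟨hy | hy, hyT⟩
      · have : y ∈ B ∩ Tg L n J := ⟨hy, Tg_anti (by omega) hyT⟩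
        rw [hB.inter] at this
        have hyz : y = zB := this
        rw [hyz]; exact hB.memL
      · exact hy
    · rw [eq_empty_iff_forall_notMem]
      rintro y ⟨hy1, hy2⟩
      exact hA1T y hy1 (Tg_anti (by omega) hy2)
    · rw [eq_empty_iff_forall_notMem]
      rintro y ⟨hy1, hy2 | hy2⟩
      · have : y ∈ A ∩ B := ⟨(p3 hy1).1, hy2⟩
        rw [hAB] at this; exact this
      · exact hA1T y hy1 (mem_Tg.2 ⟨J, le_rfl, by omega, hy2⟩)
    · rw [eq_empty_iff_forall_notMem]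
      rintro y ⟨hy1, hy2 | hy2⟩
      · have : y ∈ T ∩ B := ⟨hy1, hy2⟩
        rw [hTB] at this; exact this
      · exact hRJ y (t3 hy1) hy2
  by_cases hzA : z ∈ A
  · refine reroute A B zA zB hA hB hAB hzA ?_
    rw [eq_empty_iff_forall_notMem]
    rintro y ⟨hy1, hy2⟩
    have hyz := hTz y hy1 (Or.inr hy2)
    subst hyz
    have : y ∈ A ∩ B := ⟨hzA, hy2⟩
    rw [hAB] at this; exact this
  by_cases hzB : z ∈ B
  · refine reroute B A zB zA hB hA (by rw [inter_comm]; exact hAB) hzB ?_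
    rw [eq_empty_iff_forall_notMem]
    rintro y ⟨hy1, hy2⟩
    have hyz := hTz y hy1 (Or.inl (Or.inr hy2))
    subst hyz
    exact hzA hy2
  have hz0 : z ∈ L 0 := by
    rcases hz.2 with (hc | hc) | hc
    · exact hc
    · exact absurd hc hzA
    · exact absurd hc hzB
  obtain ⟨b, hbB, hb0⟩ := hB.start
  have hTB : T ∩ (B ∪ L J) = ∅ := by
    rw [eq_empty_iff_forall_notMem]
    rintro y ⟨hy1, hy2 | hy2⟩
    · have hyz := hTz y hy1 (Or.inr hy2)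
      subst hyz
      exact hzB hy2
    · exact hRJ y (t3 hy1) hy2
  refine stepAux h hL (J := J) (B₁ := B ∪ L J) (hB.cl.union (hL.cl J (by omega)))
    (hB.pc.union zB hB.mem hB.memL (hL.pc J (by omega))) subset_union_right (b := b)
    (Or.inl hbB) hb0 ?_ (by omega) (A₁ := {z}) (T := T) (z := z) (z' := z') isClosed_singleton
    isPreconnected_singleton ?_ ⟨z, rfl, hz0⟩ rfl t1 t2 t5 t6 hz.1 ?_ hTB
  · rintro y ⟨hy | hy, hyT⟩
    · have : y ∈ B ∩ Tg L n J := ⟨hy, Tg_anti (by omega) hyT⟩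
      rw [hB.inter] at this
      have hyz : y = zB := this
      rw [hyz]; exact hB.memL
    · exact hy
  · rw [eq_empty_iff_forall_notMem]
    rintro y ⟨rfl, hy2⟩
    exact hL.zero_Tg (by omega) hz0 hy2
  · rw [eq_empty_iff_forall_notMem]
    rintro y ⟨rfl, hy2⟩
    have : y ∈ T ∩ (B ∪ L J) := ⟨hz.1, hy2⟩
    rw [hTB] at this; exact this

theorem twoChannel (h : Hlc X) {L : ℕ → Set X} {n : ℕ} (hL : Links L n) (hn : 1 ≤ n)
    (hG : ∀ i, 1 ≤ i → i ≤ n → Good (L 0) (L (n + 1)) (L i)) :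
    ∃ A B w w', Ch L n (n + 1) A w ∧ Ch L n (n + 1) B w' ∧ A ∩ B = ∅ := by
  have key : ∀ d J, 2 ≤ J → J ≤ n + 1 → n + 1 - J = d →
      (∃ A B w w', Ch L n J A w ∧ Ch L n J B w' ∧ A ∩ B = ∅) →
      ∃ A B w w', Ch L n (n + 1) A w ∧ Ch L n (n + 1) B w' ∧ A ∩ B = ∅ := by
    intro d
    induction d using Nat.strong_induction_on with
    | _ d ih =>
      intro J hJ2 hJn hd hst
      by_cases hJe : J = n + 1
      · subst hJe; exact hst
      · obtain ⟨A, B, w, w', hA, hB, hAB⟩ := hst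
        obtain ⟨J', A', B', v, v', h1, h2, h3, h4, h5⟩ := step h hL hJ2 (by omega)
          (hG J (by omega) (by omega)) hA hB hAB
        exact ih (n + 1 - J') (by omega) J' (by omega) h2 rfl ⟨A', B', v, v', h3, h4, h5⟩
  obtain ⟨J', A', B', v, v', h1, h2, h3, h4, h5⟩ := base h hL hn (hG 1 le_rfl hn)
  exact key _ J' h1 h2 rfl ⟨A', B', v, v', h3, h4, h5⟩

end Pool.Agent.H318.HLC
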