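import Pool.Agent.H318.HLC.Sep
import Pool.Agent.W651.HI.Asm

set_option autoImplicit false

namespace Pool.Agent.H318.HLC

open Set Topology Metric Filter TopologicalSpace

variable {X : Type*} [MetricSpace X]

theorem open_disj_closure {U O : Set X} (hU : IsOpen U) (hd : Disjoint U O) {y : X} (hy : y ∈ U) :
    y ∉ closure O := by
  intro hc
  obtain ⟨w, hw1, hw2⟩ := _root_.mem_closure_iff.1 hc U hU hy
  exact Set.disjoint_left.1 hd hw1 hw2

/-- off a countable set, a (locally connected) hereditarily locally connected space satisfies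
condition (R₂) -/
theorem R2 [LocallyConnectedSpace X] [SecondCountableTopology X] (h : Hlc X) :
    ∃ C : Set X, C.Countable ∧ ∃ B : Set (Set ↥(Cᶜ : Set X)), (∀ U ∈ B, IsClosed U) ∧
      (∀ p : ↥(Cᶜ : Set X), ∀ V ∈ nhds p, ∃ U ∈ B, U ⊆ V ∧ p ∈ interior U) ∧
      (∀ U ∈ B, ∀ W ∈ B, Disjoint U W →
        ∃ F : Set ↥(Cᶜ : Set X), IsClopen F ∧ U ⊆ F ∧ Disjoint F W) := by
  classical
  obtain ⟨o, ho1, ho2⟩ := exists_base X
  have h1 : ∀ n, ∃ T : Set (Set X), T.Countable ∧
      T ⊆ {U | IsOpen U ∧ (frontier U).Countable ∧ Disjoint U (o n)} ∧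
      (closure (o n))ᶜ ⊆ ⋃₀ T := by
    intro n
    obtain ⟨T, hT1, hT2, hT3⟩ := isOpen_sUnion_countable
      {U : Set X | IsOpen U ∧ (frontier U).Countable ∧ Disjoint U (o n)} (fun U hU => hU.1)
    refine ⟨T, hT1, hT2, ?_⟩
    rw [hT3]
    intro x hx
    by_cases hn : (o n).Nonempty
    · obtain ⟨U, u1, u2, u3, u4⟩ := Fprime h (ho1 n).2 hn hx
      exact ⟨U, ⟨u1, u4, u3⟩, u2⟩
    · rw [not_nonempty_iff_eq_empty] at hn
      refine ⟨univ, ⟨isOpen_univ, ?_, ?_⟩, mem_univ _⟩
      · rw [frontier_univ]; exact countable_empty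
      · rw [hn]; exact disjoint_bot_right
  choose T hT1 hT2 hT3 using h1
  set C : Set X := ⋃ n, ⋃ U ∈ T n, frontier U with hC
  have hCc : C.Countable := countable_iUnion fun n => (hT1 n).biUnion fun U hU => (hT2 n hU).2.1
  have hcl : ∀ n, ∀ U ∈ T n, IsClopen (Subtype.val ⁻¹' U : Set ↥(Cᶜ : Set X)) := by
    intro n U hU
    refine ⟨?_, (hT2 n hU).1.preimage continuous_subtype_val⟩
    have : (Subtype.val ⁻¹' U : Set ↥(Cᶜ : Set X)) = Subtype.val ⁻¹' closure U := by
      ext y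
      refine ⟨fun hy => subset_closure hy, fun hy => ?_⟩
      by_contra hyU
      have hfr : y.1 ∈ frontier U := by
        rw [(hT2 n hU).1.frontier_eq]; exact ⟨hy, hyU⟩
      exact y.2 (mem_iUnion.2 ⟨n, mem_biUnion hU hfr⟩)
    rw [this]
    exact isClosed_closure.preimage continuous_subtype_val
  refine ⟨C, hCc, {U | ∃ n, U = Subtype.val ⁻¹' closure (o n)}, ?_, ?_, ?_⟩
  · rintro U ⟨n, rfl⟩
    exact isClosed_closure.preimage continuous_subtype_val
  · intro p V hV
    obtain ⟨G, hG, hGV⟩ := mem_nhds_induced _ p V |>.1 hV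
    obtain ⟨G₁, hG₁, hpG₁, hG₁G⟩ := exists_mem_nhds_isClosed_subset hG |>.imp
      fun K hK => (⟨hK.2.1, hK.1, hK.2.2⟩ : IsClosed K ∧ K ∈ 𝓝 p.1 ∧ K ⊆ G)
    obtain ⟨n, hn1, hn2⟩ := ho2 (interior G₁) isOpen_interior p.1 (mem_interior_iff_mem_nhds.2 hpG₁)
    refine ⟨_, ⟨n, rfl⟩, ?_, ?_⟩
    · intro y hy
      apply hGV
      apply hG₁G
      exact closure_minimal (hn2.trans interior_subset) hG₁ hy
    · rw [mem_interior]
      exact ⟨Subtype.val ⁻¹' (o n), fun y hy => subset_closure hy,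
        (ho1 n).1.preimage continuous_subtype_val, hn1⟩
  · rintro U ⟨n, rfl⟩ W ⟨m, rfl⟩ hd
    have hSc : (insert ∅ (T n ∪ T m)).Countable := ((hT1 n).union (hT1 m)).insert _
    obtain ⟨g, hg⟩ := hSc.exists_eq_range ⟨∅, mem_insert _ _⟩
    have hgmem : ∀ k, g k = ∅ ∨ g k ∈ T n ∨ g k ∈ T m := by
      intro k
      have : g k ∈ insert ∅ (T n ∪ T m) := by rw [hg]; exact mem_range_self k
      rcases mem_insert_iff.1 this with h2 | h2 | h2
      · exact Or.inl h2
      · exact Or.inr (Or.inl h2)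
      · exact Or.inr (Or.inr h2)
    have hgcl : ∀ k, IsClopen (Subtype.val ⁻¹' (g k) : Set ↥(Cᶜ : Set X)) := by
      intro k
      rcases hgmem k with h2 | h2 | h2
      · rw [h2, preimage_empty]; exact isClopen_empty
      · exact hcl n _ h2
      · exact hcl m _ h2
    have hgo : ∀ k, IsOpen (g k) := by
      intro k
      rcases hgmem k with h2 | h2 | h2
      · rw [h2]; exact isOpen_empty
      · exact (hT2 n h2).1
      · exact (hT2 m h2).1
    have hgrange : ∀ V, V ∈ T n ∨ V ∈ T m → ∃ k, g k = V := by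
      intro V hV
      have : V ∈ insert ∅ (T n ∪ T m) := mem_insert_of_mem _ hV
      rw [hg] at this
      exact this
    have hcov : ∀ y : ↥(Cᶜ : Set X), ∃ k, y.1 ∈ g k := by
      intro y
      by_cases hyn : y.1 ∈ closure (o n)
      · have hym : y.1 ∉ closure (o m) := fun hc =>
          Set.disjoint_left.1 hd (show y ∈ Subtype.val ⁻¹' closure (o n) from hyn) hc
        obtain ⟨V, hV, hyV⟩ := hT3 m hym
        obtain ⟨k, hk⟩ := hgrange V (Or.inr hV)
        exact ⟨k, by rw [hk]; exact hyV⟩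
      · obtain ⟨V, hV, hyV⟩ := hT3 n hyn
        obtain ⟨k, hk⟩ := hgrange V (Or.inl hV)
        exact ⟨k, by rw [hk]; exact hyV⟩
    let A : ℕ → Set ↥(Cᶜ : Set X) := fun k =>
      Subtype.val ⁻¹' (g k) ∩ ⋂ j ∈ Finset.range k, (Subtype.val ⁻¹' (g j))ᶜ
    have hAo : ∀ k, IsOpen (A k) := fun k =>
      (hgcl k).2.inter (isOpen_biInter_finset fun j _ => (hgcl j).1.isOpen_compl)
    have hAcov : ∀ y, ∃ k, y ∈ A k := by
      intro y
      refine ⟨Nat.find (hcov y), Nat.find_spec (hcov y), mem_iInter₂.2 fun j hj => ?_⟩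
      exact Nat.find_min (hcov y) (Finset.mem_range.1 hj)
    have hAd : ∀ i j y, i < j → y ∈ A i → y ∈ A j → False := by
      intro i j y hij hi hj
      exact mem_iInter₂.1 hj.2 i (Finset.mem_range.2 hij) hi.1
    have hAd' : ∀ i j y, y ∈ A i → y ∈ A j → i = j := by
      intro i j y hi hj
      rcases lt_trichotomy i j with h3 | h3 | h3
      · exact (hAd i j y h3 hi hj).elim
      · exact h3
      · exact (hAd j i y h3 hj hi).elim
    let F : Set ↥(Cᶜ : Set X) := ⋃ k ∈ {k | Disjoint (g k) (o m)}, A k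
    let F' : Set ↥(Cᶜ : Set X) := ⋃ k ∈ {k | ¬ Disjoint (g k) (o m)}, A k
    have hFo : IsOpen F := isOpen_biUnion fun k _ => hAo k
    have hFo' : IsOpen F' := isOpen_biUnion fun k _ => hAo k
    have hFc : F = F'ᶜ := by
      ext y
      simp only [F, F', mem_iUnion, mem_compl_iff, Set.mem_ofPred_eq, exists_prop, not_exists, not_and]
      constructor
      · rintro ⟨k, hk1, hk2⟩ j hj1 hj2
        have := hAd' k j y hk2 hj2
        subst this
        exact hj1 hk1
      · intro hy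
        obtain ⟨k, hk⟩ := hAcov y
        refine ⟨k, ?_, hk⟩
        by_contra hc
        exact hy k hc hk
    refine ⟨F, ⟨by rw [hFc]; exact hFo'.isClosed_compl, hFo⟩, ?_, ?_⟩
    · intro y hy
      obtain ⟨k, hk⟩ := hAcov y
      have hdis : Disjoint (g k) (o m) := by
        rcases hgmem k with h2 | h2 | h2
        · have := hk.1
          rw [mem_preimage, h2] at this
          exact absurd this (notMem_empty _)
        · exact absurd hy (open_disj_closure (hgo k) (hT2 n h2).2.2 hk.1)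
        · exact (hT2 m h2).2.2
      exact mem_biUnion (show k ∈ {k | Disjoint (g k) (o m)} from hdis) hk
    · rw [Set.disjoint_left]
      intro y hy hym
      simp only [F, mem_iUnion, Set.mem_ofPred_eq, exists_prop] at hy
      obtain ⟨k, hk1, hk2⟩ := hy
      exact open_disj_closure (hgo k) hk1 hk2.1 hym

theorem main (X : Type) [MetricSpace X] [SeparableSpace X] [LocallyConnectedSpace X]
    (h : Hlc X) (x : X) (V : Set X) (hV : IsOpen V) (hxV : x ∈ V) :
    ∃ U : Set X, IsOpen U ∧ x ∈ U ∧ U ⊆ V ∧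
      ∀ y : ↥(frontier U), ∀ O : Set ↥(frontier U), IsOpen O → y ∈ O →
        ∃ W : Set ↥(frontier U), IsClopen W ∧ y ∈ W ∧ W ⊆ O := by
  have : SecondCountableTopology X := UniformSpace.secondCountable_of_separable X
  obtain ⟨C, hC, hB⟩ := R2 h
  exact Pool.Agent.W651.HI.final
    (Pool.Agent.W651.HI.main Pool.Agent.W374.HI.Size.main Pool.Agent.W374.HI.Lim.main
      Pool.Agent.W160.HI.Bump.main)
    (Pool.Agent.W240.HI.main Pool.Agent.W160.HI.Crook.main) Pool.Agent.W837.HIEmb.main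
    X C hC hB x V hV hxV

end Pool.Agent.H318.HLC
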