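import Pool.Agent.H318.HLC.ThmA

set_option autoImplicit false

namespace Pool.Agent.H318.HLC

open Set Topology Metric Filter TopologicalSpace

variable {X : Type*} [MetricSpace X]

theorem exists_base (X : Type*) [MetricSpace X] [LocallyConnectedSpace X]
    [SecondCountableTopology X] :
    ∃ o : ℕ → Set X, (∀ n, IsOpen (o n) ∧ IsPreconnected (o n)) ∧
      ∀ U : Set X, IsOpen U → ∀ x ∈ U, ∃ n, x ∈ o n ∧ o n ⊆ U := by
  have hB := (locallyConnectedSpace_iff_isTopologicalBasis_isOpen_isPreconnected (α := X)).1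
    inferInstance
  have h1 : ∀ b : Set X, ∃ T : Set (Set X), T.Countable ∧
      T ⊆ {s | (IsOpen s ∧ IsPreconnected s) ∧ s ⊆ b} ∧ (IsOpen b → ⋃₀ T = b) := by
    intro b
    obtain ⟨T, hT1, hT2, hT3⟩ := isOpen_sUnion_countable
      {s : Set X | (IsOpen s ∧ IsPreconnected s) ∧ s ⊆ b} (fun s hs => hs.1.1)
    refine ⟨T, hT1, hT2, fun hb => ?_⟩
    rw [hT3]
    apply subset_antisymm
    · exact sUnion_subset fun s hs => hs.2
    · intro x hx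
      obtain ⟨s, hs, hxs, hsb⟩ := hB.exists_subset_of_mem_open hx hb
      exact ⟨s, ⟨hs, hsb⟩, hxs⟩
  choose T hT1 hT2 hT3 using h1
  set S : Set (Set X) := insert ∅ (⋃ b ∈ countableBasis X, T b) with hS
  have hSc : S.Countable :=
    ((countable_countableBasis X).biUnion fun b _ => hT1 b).insert _
  obtain ⟨o, ho⟩ := hSc.exists_eq_range ⟨∅, mem_insert _ _⟩
  refine ⟨o, ?_, ?_⟩
  · intro n
    have : o n ∈ S := by rw [ho]; exact mem_range_self n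
    rcases mem_insert_iff.1 this with h | h
    · rw [h]; exact ⟨isOpen_empty, isPreconnected_empty⟩
    · simp only [mem_iUnion] at h
      obtain ⟨b, _, hb⟩ := h
      exact (hT2 b hb).1
  · intro U hU x hx
    obtain ⟨b, hb, hxb, hbU⟩ := (isBasis_countableBasis X).exists_subset_of_mem_open hx hU
    have : x ∈ ⋃₀ T b := by
      rw [hT3 b ((isBasis_countableBasis X).isOpen hb)]; exact hxb
    obtain ⟨s, hs, hxs⟩ := this
    have hsS : s ∈ S := mem_insert_of_mem _ (mem_biUnion hb hs)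
    rw [ho] at hsS
    obtain ⟨n, rfl⟩ := hsS
    exact ⟨n, hxs, (hT2 b hs).2.trans hbU⟩

theorem lemW' (h : Hlc X) {𝓔 : Set (Set X)} (hE : ∀ E ∈ 𝓔, IsOpen E ∧ IsPreconnected E)
    (hd : ∀ E ∈ 𝓔, ∀ E' ∈ 𝓔, E ≠ E' → E ∩ E' = ∅) {O : Set X} (hO : IsPreconnected O) {p : X}
    (hp : p ∉ closure O) (hpE : ∀ E ∈ 𝓔, p ∉ E) :
    ∃ r : ℝ, 0 < r ∧ {E ∈ 𝓔 | (E ∩ ball p r).Nonempty ∧ (E ∩ O).Nonempty}.Finite := by
  by_contra hcon
  push Not at hcon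
  obtain ⟨f, hf1, hf2⟩ := exists_seq_of_forall_finset_exists
    (fun y : ℕ × Set X => y.2 ∈ 𝓔 ∧ (y.2 ∩ ball p (1 / (y.1 + 1 : ℝ))).Nonempty ∧
      (y.2 ∩ O).Nonempty) (fun y y' => y.1 < y'.1 ∧ y.2 ≠ y'.2) (by
    classical
    intro s _
    set K := s.sup (fun y => y.1) + 1 with hK
    obtain ⟨E, hE1, hE2⟩ := (hcon (1 / (K + 1 : ℝ)) (by positivity)).exists_notMem_finset
      (s.image (fun y => y.2))
    refine ⟨(K, E), ⟨hE1.1, hE1.2.1, hE1.2.2⟩, fun y hy => ⟨?_, ?_⟩⟩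
    · have := Finset.le_sup (f := fun y : ℕ × Set X => y.1) hy
      simp only at this ⊢
      omega
    · rintro h3
      exact hE2 (Finset.mem_image.2 ⟨y, hy, h3⟩))
  have hmono : ∀ n, n ≤ (f n).1 := by
    intro n
    induction n with
    | zero => omega
    | succ n ih => have := (hf2 n (n + 1) (by omega)).1; omega
  refine lemW h hO hp (E := fun n => (f n).2) (fun k => (hE _ (hf1 k).1).1)
    (fun k => (hE _ (hf1 k).1).2) ?_ (fun k => (hf1 k).2.2) (fun k => hpE _ (hf1 k).1) ?_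
  · intro i j hij
    apply hd _ (hf1 i).1 _ (hf1 j).1
    rcases lt_or_gt_of_ne hij with h1 | h1
    · exact (hf2 i j h1).2
    · exact (hf2 j i h1).2.symm
  · intro k
    obtain ⟨y, hy1, hy2⟩ := (hf1 k).2.1
    refine ⟨y, hy1, ball_subset_ball ?_ hy2⟩
    have : (k : ℝ) ≤ (f k).1 := by exact_mod_cast hmono k
    apply one_div_le_one_div_of_le
    · positivity
    · linarith

theorem near (h : Hlc X) {𝓔 𝓖 : Set (Set X)} (hE : ∀ E ∈ 𝓔, IsOpen E ∧ IsPreconnected E)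
    (hd : ∀ E ∈ 𝓔, ∀ E' ∈ 𝓔, E ≠ E' → E ∩ E' = ∅) (hG : 𝓖 ⊆ 𝓔) {e : X}
    (he : ∀ E ∈ 𝓔, e ∉ closure E) {r₀ : ℝ} (hr₀ : 0 < r₀) {N : ℕ} {P : ℕ → Prop}
    {O : ℕ → Set X} (hO : ∀ m < N, P m → IsPreconnected (O m) ∧ e ∉ closure (O m))
    (hGO : ∀ C ∈ 𝓖, (C ∩ ball e r₀).Nonempty → ∃ m < N, P m ∧ (C ∩ O m).Nonempty) :
    e ∉ closure (⋃₀ 𝓖) := by
  have hev : ∀ m ∈ Finset.range N, ∀ᶠ r : ℝ in 𝓝[>] 0,
      (P m → {E ∈ 𝓔 | (E ∩ ball e r).Nonempty ∧ (E ∩ O m).Nonempty}.Finite) := by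
    intro m hm
    by_cases hP : P m
    · obtain ⟨h1, h2⟩ := hO m (Finset.mem_range.1 hm) hP
      obtain ⟨r, hr, hfin⟩ := lemW' h hE hd h1 h2 fun E hE' hc => he E hE' (subset_closure hc)
      filter_upwards [Ioo_mem_nhdsGT hr] with r' hr' _
      refine hfin.subset ?_
      rintro E ⟨h3, h4, h5⟩
      exact ⟨h3, h4.mono (inter_subset_inter_right _ (ball_subset_ball hr'.2.le)), h5⟩
    · exact Eventually.of_forall fun r hc => absurd hc hP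
  rw [← Filter.eventually_all_finset] at hev
  obtain ⟨r, hr1, hr2⟩ := (hev.and (Ioo_mem_nhdsGT hr₀)).exists
  have hfin : {E ∈ 𝓖 | (E ∩ ball e r).Nonempty}.Finite := by
    have hfin2 : (⋃ m ∈ Finset.range N,
        {E | P m ∧ (E ∈ 𝓔 ∧ (E ∩ ball e r).Nonempty ∧ (E ∩ O m).Nonempty)}).Finite := by
      apply Set.Finite.biUnion (Finset.finite_toSet _)
      intro m hm
      by_cases hP : P m
      · exact (hr1 m hm hP).subset fun E hE => hE.2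
      · exact Set.finite_empty.subset fun E hE => hP hE.1
    refine hfin2.subset ?_
    rintro E ⟨hE1, hE2⟩
    obtain ⟨m, hm1, hm2, hm3⟩ := hGO E hE1
      (hE2.mono (inter_subset_inter_right _ (ball_subset_ball hr2.2.le)))
    simp only [mem_iUnion]
    exact ⟨m, Finset.mem_range.2 hm1, hm2, hG hE1, hE2, hm3⟩
  have hcl : e ∉ closure (⋃₀ {E ∈ 𝓖 | (E ∩ ball e r).Nonempty}) := by
    rw [hfin.closure_sUnion]
    intro hc
    simp only [mem_iUnion] at hc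
    obtain ⟨E, hE1, hE2⟩ := hc
    exact he E (hG hE1.1) hE2
  intro hc
  apply hcl
  rw [_root_.mem_closure_iff] at hc ⊢
  intro U hU heU
  obtain ⟨y, ⟨hy1, hy2⟩, E, hE1, hE2⟩ := hc (U ∩ ball e r) (hU.inter isOpen_ball)
    ⟨heU, mem_ball_self hr2.1⟩
  exact ⟨y, hy1, E, ⟨hE1, y, hE2, hy2⟩, hE2⟩

/-- the quasi-component of `x` in `E` -/
def Qc (E : Set X) (x : X) : Set X :=
  {y ∈ E | ∀ U₁ U₂ : Set X, IsOpen U₁ → IsOpen U₂ → U₁ ∩ U₂ = ∅ → E ⊆ U₁ ∪ U₂ → x ∈ U₁ → y ∈ U₁}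

/-- THEOREM QC: quasi-components of arbitrary subsets are connected. -/
theorem QC [LocallyConnectedSpace X] [SecondCountableTopology X] (h : Hlc X) {E : Set X} {x : X}
    (hx : x ∈ E) : IsPreconnected (Qc E x) := by
  classical
  intro u v hu hv huv hKu hKv
  by_contra hemp
  rw [not_nonempty_iff_eq_empty] at hemp
  set K := Qc E x with hK
  have hKE : K ⊆ E := fun y hy => hy.1
  have hxK : x ∈ K := ⟨hx, fun U₁ U₂ _ _ _ _ hc => hc⟩
  have hemp' : ∀ y ∈ K, y ∈ u → y ∈ v → False := by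
    intro y h1 h2 h3
    have : y ∈ K ∩ (u ∩ v) := ⟨h1, h2, h3⟩
    rw [hemp] at this; exact this
  have hsep : SeparatedNhds (K ∩ u) (K ∩ v) := by
    rw [separatedNhds_iff_disjoint]
    apply completely_normal
    · rw [Set.disjoint_left]
      rintro y hy1 ⟨hy2, hy3⟩
      obtain ⟨w, hw1, hw2, hw3⟩ := mem_closure_iff.1 hy1 v hv hy3
      exact hemp' w hw2 hw3 hw1
    · rw [Set.disjoint_left]
      rintro y ⟨hy1, hy2⟩ hy3
      obtain ⟨w, hw1, hw2, hw3⟩ := mem_closure_iff.1 hy3 u hu hy2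
      exact hemp' w hw2 hw1 hw3
  obtain ⟨A, B, hA, hB, hKA, hKB, hAB⟩ := hsep
  have hAB' : ∀ y, y ∈ A → y ∈ B → False := fun y h1 h2 => Set.disjoint_left.1 hAB h1 h2
  -- separations at the points outside `A ∪ B`
  have h1 : ∀ e : ↥(E \ (A ∪ B)), ∃ U : Set X × Set X, IsOpen U.1 ∧ IsOpen U.2 ∧
      U.1 ∩ U.2 = ∅ ∧ E ⊆ U.1 ∪ U.2 ∧ x ∈ U.1 ∧ e.1 ∈ U.2 := by
    rintro ⟨e, heE, heAB⟩
    have heK : e ∉ K := by
      intro hc
      rcases huv hc with h2 | h2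
      · exact heAB (Or.inl (hKA ⟨hc, h2⟩))
      · exact heAB (Or.inr (hKB ⟨hc, h2⟩))
    have : ∃ U₁ U₂ : Set X, IsOpen U₁ ∧ IsOpen U₂ ∧ U₁ ∩ U₂ = ∅ ∧ E ⊆ U₁ ∪ U₂ ∧ x ∈ U₁ ∧
        e ∉ U₁ := by
      by_contra hc
      push Not at hc
      exact heK ⟨heE, fun U₁ U₂ a1 a2 a3 a4 a5 => hc U₁ U₂ a1 a2 a3 a4 a5⟩
    obtain ⟨U₁, U₂, a1, a2, a3, a4, a5, a6⟩ := this
    exact ⟨(U₁, U₂), a1, a2, a3, a4, a5, (a4 heE).resolve_left a6⟩
  choose U hU1 hU2 hU3 hU4 hU5 hU6 using h1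
  obtain ⟨W1, W2, w1, w2, w3, w4, w5, w6⟩ : ∃ W1 W2 : ℕ → Set X, (∀ n, IsOpen (W1 n)) ∧
      (∀ n, IsOpen (W2 n)) ∧ (∀ n, W1 n ∩ W2 n = ∅) ∧ (∀ n, E ⊆ W1 n ∪ W2 n) ∧
      (∀ n, x ∈ W1 n) ∧ (E \ (A ∪ B) ⊆ ⋃ n, W2 n) := by
    obtain ⟨T, hTc, hT⟩ := isOpen_iUnion_countable (fun e => (U e).2) hU2
    have hcov : E \ (A ∪ B) ⊆ ⋃ e ∈ T, (U e).2 := by
      rw [hT]
      intro e he
      exact mem_iUnion.2 ⟨⟨e, he⟩, hU6 ⟨e, he⟩⟩
    by_cases hTn : T.Nonempty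
    · obtain ⟨g, hg⟩ := hTc.exists_eq_range hTn
      refine ⟨fun n => (U (g n)).1, fun n => (U (g n)).2, fun n => hU1 _, fun n => hU2 _,
        fun n => hU3 _, fun n => hU4 _, fun n => hU5 _, ?_⟩
      intro e he
      have := hcov he
      simp only [mem_iUnion] at this
      obtain ⟨i, hi, hei⟩ := this
      rw [hg] at hi
      obtain ⟨n, rfl⟩ := hi
      exact mem_iUnion.2 ⟨n, hei⟩
    · rw [not_nonempty_iff_eq_empty] at hTn
      subst hTn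
      refine ⟨fun _ => univ, fun _ => ∅, fun _ => isOpen_univ, fun _ => isOpen_empty, ?_, ?_, ?_,
        ?_⟩
      · intro n; simp
      · intro n; simp
      · intro n; exact mem_univ _
      · intro e he
        have := hcov he
        simp at this
  have hKW : ∀ n, K ⊆ W1 n := fun n y hy => hy.2 (W1 n) (W2 n) (w1 n) (w2 n) (w3 n) (w4 n) (w5 n)
  have hW12 : ∀ n y, y ∈ W1 n → y ∈ W2 n → False := fun n y h1 h2 => by
    have : y ∈ W1 n ∩ W2 n := ⟨h1, h2⟩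
    rw [w3] at this; exact this
  let W : ℕ → Set X := fun n => W2 n ∩ ⋂ m ∈ Finset.range n, W1 m
  have hWo : ∀ n, IsOpen (W n) := fun n =>
    (w2 n).inter (isOpen_biInter_finset fun m _ => w1 m)
  have hWd : ∀ m n y, m < n → y ∈ W m → y ∈ W n → False := by
    intro m n y hmn h1 h2
    have := mem_iInter₂.1 h2.2 m (Finset.mem_range.2 hmn)
    exact hW12 m y this h1.1
  have hWd' : ∀ m n y, y ∈ W m → y ∈ W n → m = n := by
    intro m n y h1 h2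
    rcases lt_trichotomy m n with h3 | h3 | h3
    · exact (hWd m n y h3 h1 h2).elim
    · exact h3
    · exact (hWd n m y h3 h2 h1).elim
  have hWcl : ∀ n y, y ∈ E → y ∈ closure (W n) → y ∈ W n := by
    intro n y hyE hyc
    have h2 : y ∈ W2 n := by
      rcases w4 n hyE with h3 | h3
      · obtain ⟨z, hz1, hz2⟩ := mem_closure_iff.1 hyc (W1 n) (w1 n) h3
        exact (hW12 n z hz1 hz2.1).elim
      · exact h3
    refine ⟨h2, mem_iInter₂.2 fun m hm => ?_⟩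
    rcases w4 m hyE with h3 | h3
    · exact h3
    · obtain ⟨z, hz1, hz2⟩ := mem_closure_iff.1 hyc (W2 m) (w2 m) h3
      exact (hW12 m z (mem_iInter₂.1 hz2.2 m hm) hz1).elim
  have hWcov : ∀ e ∈ E, e ∉ A → e ∉ B → ∃ n, e ∈ W n := by
    intro e heE heA heB
    have hex : ∃ n, e ∈ W2 n := mem_iUnion.1 (w6 ⟨heE, fun hc => hc.elim heA heB⟩)
    refine ⟨Nat.find hex, Nat.find_spec hex, mem_iInter₂.2 fun m hm => ?_⟩
    exact (w4 m heE).resolve_right (Nat.find_min hex (Finset.mem_range.1 hm))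
  have hKW' : ∀ n y, y ∈ K → y ∉ W n := fun n y hy hc => hW12 n y (hKW n hy) hc.1
  -- the family of pieces
  let 𝓔 : Set (Set X) := {C | ∃ n, ∃ y ∈ W n, C = connectedComponentIn (W n) y}
  have hE1 : ∀ C ∈ 𝓔, IsOpen C ∧ IsPreconnected C := by
    rintro C ⟨n, y, hy, rfl⟩
    exact ⟨(hWo n).connectedComponentIn, isPreconnected_connectedComponentIn⟩
  have hE2 : ∀ C ∈ 𝓔, ∀ C' ∈ 𝓔, ∀ z, z ∈ C → z ∈ C' → C = C' := by
    rintro C ⟨n, y, hy, rfl⟩ C' ⟨n', y', hy', rfl⟩ z hz hz'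
    have hnn : n = n' := hWd' n n' z (connectedComponentIn_subset _ _ hz)
      (connectedComponentIn_subset _ _ hz')
    subst hnn
    rw [connectedComponentIn_eq hz, connectedComponentIn_eq hz']
  have hE2' : ∀ C ∈ 𝓔, ∀ C' ∈ 𝓔, C ≠ C' → C ∩ C' = ∅ := by
    intro C hC C' hC' hne
    rw [eq_empty_iff_forall_notMem]
    rintro z ⟨hz1, hz2⟩
    exact hne (hE2 C hC C' hC' z hz1 hz2)
  have hE3 : ∀ C ∈ 𝓔, ∀ e ∈ E, e ∈ closure C → e ∈ C := by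
    rintro C ⟨n, y, hy, rfl⟩ e he hec
    have h2 : e ∈ W n := hWcl n e he (closure_mono (connectedComponentIn_subset _ _) hec)
    exact closure_comp_inter hy hec h2
  have hE4 : ∀ n, ∀ y ∈ W n, ∃ C ∈ 𝓔, y ∈ C := fun n y hy =>
    ⟨_, ⟨n, y, hy, rfl⟩, mem_connectedComponentIn hy⟩
  have hE5 : ∀ y ∈ K, ∀ C ∈ 𝓔, y ∉ C := by
    rintro y hy C ⟨n, z, hz, rfl⟩ hc
    exact hKW' n y hy (connectedComponentIn_subset _ _ hc)
  obtain ⟨o, ho1, ho2⟩ := exists_base X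
  let 𝓞 : Set (Set X) := {C ∈ 𝓔 | ∃ m, o m ⊆ B ∧ (C ∩ o m).Nonempty ∧
    ∀ n ≤ m, o n ⊆ A → ¬ (C ∩ o n).Nonempty}
  let 𝓘 : Set (Set X) := 𝓔 \ 𝓞
  have claimA : ∀ e ∈ E, e ∈ A → (∀ C ∈ 𝓔, e ∉ C) → e ∉ closure (⋃₀ 𝓞) := by
    intro e he heA heC
    obtain ⟨n₀, hn1, hn2⟩ := ho2 A hA e heA
    obtain ⟨r₀, hr₀, hr₀s⟩ := Metric.isOpen_iff.1 (ho1 n₀).1 e hn1
    refine near h hE1 hE2' (fun C hC => hC.1) (fun C hC hc => heC C hC (hE3 C hC e he hc)) hr₀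
      (N := n₀) (P := fun m => o m ⊆ B) (O := o) ?_ ?_
    · intro m _ hm
      refine ⟨(ho1 m).2, fun hc => ?_⟩
      obtain ⟨z, hz1, hz2⟩ := mem_closure_iff.1 hc A hA heA
      exact hAB' z hz1 (hm hz2)
    · rintro C ⟨hC1, m, hm1, hm2, hm3⟩ hCb
      have hCn : (C ∩ o n₀).Nonempty := hCb.mono (inter_subset_inter_right _ hr₀s)
      have : ¬ n₀ ≤ m := fun hc => hm3 n₀ hc hn2 hCn
      exact ⟨m, by omega, hm1, hm2⟩
  have claimB : ∀ e ∈ E, e ∈ B → (∀ C ∈ 𝓔, e ∉ C) → e ∉ closure (⋃₀ 𝓘) := by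
    intro e he heB heC
    obtain ⟨m₀, hm1, hm2⟩ := ho2 B hB e heB
    obtain ⟨r₀, hr₀, hr₀s⟩ := Metric.isOpen_iff.1 (ho1 m₀).1 e hm1
    refine near h hE1 hE2' (fun C hC => hC.1) (fun C hC hc => heC C hC (hE3 C hC e he hc)) hr₀
      (N := m₀ + 1) (P := fun m => o m ⊆ A) (O := o) ?_ ?_
    · intro m _ hm
      refine ⟨(ho1 m).2, fun hc => ?_⟩
      obtain ⟨z, hz1, hz2⟩ := mem_closure_iff.1 hc B hB heB
      exact hAB' z (hm hz2) hz1
    · rintro C ⟨hC1, hC2⟩ hCb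
      have hCn : (C ∩ o m₀).Nonempty := hCb.mono (inter_subset_inter_right _ hr₀s)
      by_contra hc
      push Not at hc
      refine hC2 ⟨hC1, m₀, hm2, hCn, fun n hn hnA hne => ?_⟩
      have := hc n (by omega) hnA
      rw [this] at hne
      exact not_nonempty_empty hne
  set U1 : Set X := ⋃₀ 𝓘 ∪ (A ∩ (closure (⋃₀ 𝓞))ᶜ) with hU1d
  set U2 : Set X := ⋃₀ 𝓞 ∪ (B ∩ (closure (⋃₀ 𝓘))ᶜ) with hU2d
  have hIo : IsOpen (⋃₀ 𝓘) := isOpen_sUnion fun C hC => (hE1 C hC.1).1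
  have hOo : IsOpen (⋃₀ 𝓞) := isOpen_sUnion fun C hC => (hE1 C hC.1).1
  have hU1o : IsOpen U1 := hIo.union (hA.inter isClosed_closure.isOpen_compl)
  have hU2o : IsOpen U2 := hOo.union (hB.inter isClosed_closure.isOpen_compl)
  have hU12 : U1 ∩ U2 = ∅ := by
    rw [eq_empty_iff_forall_notMem]
    rintro y ⟨hy1 | hy1, hy2 | hy2⟩
    · obtain ⟨C, hC, hyC⟩ := hy1
      obtain ⟨C', hC', hyC'⟩ := hy2
      have := hE2 C hC.1 C' hC'.1 y hyC hyC'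
      subst this
      exact hC.2 hC'
    · exact hy2.2 (subset_closure hy1)
    · exact hy1.2 (subset_closure hy2)
    · exact hAB' y hy1.1 hy2.1
  have hcov : E ⊆ U1 ∪ U2 := by
    intro e he
    by_cases hC : ∃ C ∈ 𝓔, e ∈ C
    · obtain ⟨C, hC, heC⟩ := hC
      by_cases hCO : C ∈ 𝓞
      · exact Or.inr (Or.inl ⟨C, hCO, heC⟩)
      · exact Or.inl (Or.inl ⟨C, ⟨hC, hCO⟩, heC⟩)
    · push Not at hC
      by_cases heA : e ∈ A
      · exact Or.inl (Or.inr ⟨heA, claimA e he heA hC⟩)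
      by_cases heB : e ∈ B
      · exact Or.inr (Or.inr ⟨heB, claimB e he heB hC⟩)
      · obtain ⟨n, hn⟩ := hWcov e he heA heB
        obtain ⟨C, hC1, hC2⟩ := hE4 n e hn
        exact absurd hC2 (hC C hC1)
  have hK1 : K ∩ u ⊆ U1 := fun y hy =>
    Or.inr ⟨hKA hy, claimA y (hKE hy.1) (hKA hy) (hE5 y hy.1)⟩
  have hK2 : K ∩ v ⊆ U2 := fun y hy =>
    Or.inr ⟨hKB hy, claimB y (hKE hy.1) (hKB hy) (hE5 y hy.1)⟩
  rcases huv hxK with hxu | hxv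
  · obtain ⟨y, hy⟩ := hKv
    have h2 : y ∈ U1 := hy.1.2 U1 U2 hU1o hU2o hU12 hcov (hK1 ⟨hxK, hxu⟩)
    have : y ∈ U1 ∩ U2 := ⟨h2, hK2 hy⟩
    rw [hU12] at this; exact this
  · obtain ⟨y, hy⟩ := hKu
    have h2 : y ∈ U2 := hy.1.2 U2 U1 hU2o hU1o (by rw [inter_comm]; exact hU12)
      (by rw [union_comm]; exact hcov) (hK2 ⟨hxK, hxv⟩)
    have : y ∈ U1 ∩ U2 := ⟨hK1 hy, h2⟩
    rw [hU12] at this; exact this

end Pool.Agent.H318.HLC
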