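import Pool.Agent.H318.HLC.QC

set_option autoImplicit false

namespace Pool.Agent.H318.HLC

open Set Topology Metric Filter TopologicalSpace

/-- stabilisation of antitone families along countable sets -/
theorem stab {X Y ι : Type*} [TopologicalSpace Y] [SecondCountableTopology Y] [Countable ι]
    (A : ι → Set X → Set Y) (hA : ∀ i Z Z', Z ⊆ Z' → A i Z' ⊆ A i Z) :
    ∃ Z₁ : Set X, Z₁.Countable ∧ ∀ i Z, Z.Countable → Z₁ ⊆ Z →
      closure (A i Z) = closure (A i Z₁) := by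
  have h1 : ∀ (i : ι) (b : Set Y), ∃ Z : Set X, Z.Countable ∧
      ((∃ Z' : Set X, Z'.Countable ∧ A i Z' ∩ b = ∅) → A i Z ∩ b = ∅) := by
    intro i b
    by_cases hc : ∃ Z' : Set X, Z'.Countable ∧ A i Z' ∩ b = ∅
    · obtain ⟨Z', h1, h2⟩ := hc
      exact ⟨Z', h1, fun _ => h2⟩
    · exact ⟨∅, countable_empty, fun hc' => absurd hc' hc⟩
  choose Z hZ1 hZ2 using h1
  refine ⟨⋃ i, ⋃ b ∈ countableBasis Y, Z i b, countable_iUnion fun i =>
    (countable_countableBasis Y).biUnion fun b _ => hZ1 i b, ?_⟩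
  intro i Z' hZ' hsub
  apply subset_antisymm
  · exact closure_mono (hA i _ _ hsub)
  · intro y hy
    by_contra hc
    obtain ⟨b, hb, hyb, hbs⟩ := (isBasis_countableBasis Y).exists_subset_of_mem_open
      (show y ∈ (closure (A i Z'))ᶜ from hc) isClosed_closure.isOpen_compl
    have hemp : A i Z' ∩ b = ∅ := by
      rw [eq_empty_iff_forall_notMem]
      rintro w ⟨hw1, hw2⟩
      exact hbs hw2 (subset_closure hw1)
    have h3 := hZ2 i b ⟨Z', hZ', hemp⟩
    obtain ⟨w, hw1, hw2⟩ := _root_.mem_closure_iff.1 hy b ((isBasis_countableBasis Y).isOpen hb) hyb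
    have h4 : w ∈ A i (Z i b) := by
      refine hA i _ _ ?_ hw2
      intro z hz
      simp only [mem_iUnion]
      exact ⟨i, b, hb, hz⟩
    have : w ∈ A i (Z i b) ∩ b := ⟨h4, hw1⟩
    rw [h3] at this; exact this

variable {X : Type*} [MetricSpace X]

theorem relcl (h : Hlc X) {D o : Set X} (hD : IsPreconnected D) (ho : IsOpen o) {u v : X}
    (hu : u ∈ D ∩ o) (hv : v ∈ D ∩ o)
    (huv : (u, v) ∈ closure {p : X × X | p.1 ∈ D ∩ o ∧ p.2 ∈ connectedComponentIn (D ∩ o) p.1}) :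
    v ∈ connectedComponentIn (D ∩ o) u := by
  obtain ⟨Gu, hGu, hu'⟩ := comp_eq_inter h hD ho hu.1 hu.2
  obtain ⟨Gv, hGv, hv'⟩ := comp_eq_inter h hD ho hv.1 hv.2
  have huG : u ∈ Gu := by
    have := mem_connectedComponentIn hu
    rw [hu'] at this; exact this.2
  have hvG : v ∈ Gv := by
    have := mem_connectedComponentIn hv
    rw [hv'] at this; exact this.2
  obtain ⟨⟨a, b⟩, ⟨ha, hb⟩, hp1, hp2⟩ := _root_.mem_closure_iff.1 huv (Gu ×ˢ Gv) (hGu.prod hGv)
    ⟨huG, hvG⟩
  simp only at hp1 hp2 ha hb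
  have hau : a ∈ connectedComponentIn (D ∩ o) u := by rw [hu']; exact ⟨hp1.1, ha⟩
  have hbv : b ∈ connectedComponentIn (D ∩ o) v := by
    rw [hv']; exact ⟨(connectedComponentIn_subset _ _ hp2).1, hb⟩
  rw [connectedComponentIn_eq hau, connectedComponentIn_eq hp2, ← connectedComponentIn_eq hbv]
  exact mem_connectedComponentIn hv

theorem cutPiece {M O G GN N : Set X} {z : X} (hO : IsPreconnected O) (hOM : O = M ∩ G)
    (hGN : IsOpen GN) (hNM : N = M ∩ GN) (hzN : z ∈ N) (hNO : N ⊆ O)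
    (hN : IsPreconnected (N \ {z})) (hzO : z ∈ O) :
    IsPreconnected (O \ {z}) := by
  -- symmetric core
  have core : ∀ u v : Set X, IsOpen u → IsOpen v → O \ {z} ⊆ u ∪ v → ((O \ {z}) ∩ v).Nonempty →
      (∀ y ∈ O \ {z}, y ∈ u → y ∈ v → False) → N \ {z} ⊆ u → False := by
    intro u v hu hv huv hne hd hNu
    obtain ⟨w, hw1, hw2⟩ := hne
    obtain ⟨y, hyO, hy1, hy2, hy3⟩ := hO (u ∪ GN) (v ∩ {z}ᶜ) (hu.union hGN)
      (hv.inter isClosed_singleton.isOpen_compl) (by
        intro y hy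
        by_cases hyz : y = z
        · subst hyz
          left; right
          rw [hNM] at hzN; exact hzN.2
        · rcases huv ⟨hy, hyz⟩ with h1 | h1
          · exact Or.inl (Or.inl h1)
          · exact Or.inr ⟨h1, hyz⟩) ⟨z, hzO, by
            right; rw [hNM] at hzN; exact hzN.2⟩ ⟨w, hw1.1, hw2, hw1.2⟩
    rcases hy1 with h1 | h1
    · exact hd y ⟨hyO, hy3⟩ h1 hy2
    · have hyN : y ∈ N := by
        rw [hNM]; rw [hOM] at hyO; exact ⟨hyO.1, h1⟩
      exact hd y ⟨hyO, hy3⟩ (hNu ⟨hyN, hy3⟩) hy2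
  intro u v hu hv huv h1 h2
  by_contra hemp
  rw [not_nonempty_iff_eq_empty] at hemp
  have hd : ∀ y ∈ O \ {z}, y ∈ u → y ∈ v → False := by
    intro y h1 h2 h3
    have : y ∈ (O \ {z}) ∩ (u ∩ v) := ⟨h1, h2, h3⟩
    rw [hemp] at this; exact this
  by_cases hNu : N \ {z} ⊆ u
  · exact core u v hu hv huv h2 hd hNu
  by_cases hNv : N \ {z} ⊆ v
  · exact core v u hv hu (by rw [union_comm]; exact huv) h1 (fun y a b c => hd y a c b) hNv
  rw [not_subset] at hNu hNv
  obtain ⟨a, haN, hau⟩ := hNu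
  obtain ⟨b, hbN, hbv⟩ := hNv
  have hsub : N \ {z} ⊆ O \ {z} := fun y hy => ⟨hNO hy.1, hy.2⟩
  obtain ⟨y, hy, hy1, hy2⟩ := hN u v hu hv (hsub.trans huv)
    ⟨b, hbN, (huv (hsub hbN)).resolve_right hbv⟩ ⟨a, haN, (huv (hsub haN)).resolve_left hau⟩
  exact hd y (hsub hy) hy1 hy2

/-- every connected open set is separated by a countable set from every point off its closure -/
theorem Fprime [LocallyConnectedSpace X] [SecondCountableTopology X] (h : Hlc X) {V : Set X}
    (hVp : IsPreconnected V) (hVn : V.Nonempty) {x : X} (hx : x ∉ closure V) :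
    ∃ U : Set X, IsOpen U ∧ x ∈ U ∧ Disjoint U V ∧ (frontier U).Countable := by
  by_contra hcon
  push Not at hcon
  let E : Set X → Set X := fun Z => insert x (Zᶜ ∪ V)
  have hxE : ∀ Z, x ∈ E Z := fun Z => mem_insert _ _
  have hVE : ∀ Z, V ⊆ E Z := fun Z y hy => mem_insert_of_mem _ (Or.inr hy)
  have hEanti : ∀ Z Z', Z ⊆ Z' → E Z' ⊆ E Z := by
    intro Z Z' hZ
    exact insert_subset_insert (union_subset_union_left _ (compl_subset_compl.2 hZ))
  let D : Set X → Set X := fun Z => connectedComponentIn (E Z) x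
  have hDp : ∀ Z, IsPreconnected (D Z) := fun Z => isPreconnected_connectedComponentIn
  have hxD : ∀ Z, x ∈ D Z := fun Z => mem_connectedComponentIn (hxE Z)
  have hDanti : ∀ Z Z', Z ⊆ Z' → D Z' ⊆ D Z := fun Z Z' hZ =>
    connectedComponentIn_mono _ (hEanti Z Z' hZ)
  have hVD : ∀ Z, Z.Countable → V ⊆ D Z := by
    intro Z hZ
    have hVQ : V ⊆ Qc (E Z) x := by
      intro v hv
      refine ⟨hVE Z hv, fun U₁ U₂ o1 o2 hd hcov hx1 => ?_⟩
      by_contra hv1
      have hd' : ∀ y, y ∈ U₁ → y ∈ U₂ → False := fun y a b => by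
        have : y ∈ U₁ ∩ U₂ := ⟨a, b⟩
        rw [hd] at this; exact this
      have hdisj : Disjoint U₁ V := by
        rw [Set.disjoint_left]
        intro y hy1 hyV
        obtain ⟨w, hwV, hw1, hw2⟩ := hVp U₁ U₂ o1 o2 ((hVE Z).trans hcov) ⟨y, hyV, hy1⟩
          ⟨v, hv, (hcov (hVE Z hv)).resolve_left hv1⟩
        exact hd' w hw1 hw2
      refine hcon U₁ o1 hx1 hdisj (hZ.mono ?_)
      intro y hy
      by_contra hyZ
      rw [o1.frontier_eq] at hy
      have hyE : y ∈ E Z := mem_insert_of_mem _ (Or.inl hyZ)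
      have hy2 : y ∈ U₂ := (hcov hyE).resolve_left hy.2
      obtain ⟨w, hw1, hw2⟩ := _root_.mem_closure_iff.1 hy.1 U₂ o2 hy2
      exact hd' w hw2 hw1
    exact hVQ.trans ((QC h (hxE Z)).subset_connectedComponentIn
      ⟨hxE Z, fun U₁ U₂ _ _ _ _ hc => hc⟩ (fun y hy => hy.1))
  obtain ⟨o, ho1, ho2⟩ := exists_base X
  let R : ℕ → Set X → Set (X × X) := fun n Z =>
    {p : X × X | p.1 ∈ D Z ∩ o n ∧ p.2 ∈ connectedComponentIn (D Z ∩ o n) p.1}
  have hRanti : ∀ n Z Z', Z ⊆ Z' → R n Z' ⊆ R n Z := by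
    rintro n Z Z' hZ ⟨a, b⟩ ⟨h1, h2⟩
    exact ⟨⟨hDanti Z Z' hZ h1.1, h1.2⟩, connectedComponentIn_mono _
      (inter_subset_inter_left _ (hDanti Z Z' hZ)) h2⟩
  obtain ⟨Za, hZa, hZa'⟩ := stab (ι := Unit) (fun _ Z => D Z) (fun _ => hDanti)
  obtain ⟨Zb, hZb, hZb'⟩ := stab R hRanti
  set Z₁ := Za ∪ Zb with hZ₁
  have hZ₁c : Z₁.Countable := hZa.union hZb
  have hDst : ∀ Z, Z.Countable → Z₁ ⊆ Z → closure (D Z) = closure (D Z₁) := by
    intro Z hZ hs
    rw [hZa' () Z hZ (subset_union_left.trans hs), ← hZa' () Z₁ hZ₁c subset_union_left]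
  have hRst : ∀ n Z, Z.Countable → Z₁ ⊆ Z → closure (R n Z) = closure (R n Z₁) := by
    intro n Z hZ hs
    rw [hZb' n Z hZ (subset_union_right.trans hs), ← hZb' n Z₁ hZ₁c subset_union_right]
  have hDcl : ∀ Z, closure (D Z) ∩ E Z ⊆ D Z := fun Z y hy => closure_comp_inter (hxE Z) hy.1 hy.2
  set M := D Z₁ with hM
  have hMp : IsPreconnected M := hDp Z₁
  have hVM : V ⊆ M := hVD Z₁ hZ₁c
  have hxM : x ∈ M := hxD Z₁
  -- removing one more point
  have hDz : ∀ z, z ∉ V → z ≠ x → D (insert z Z₁) = M \ {z} := by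
    intro z hzV hzx
    apply subset_antisymm
    · intro y hy
      refine ⟨hDanti _ _ (subset_insert _ _) hy, ?_⟩
      rintro rfl
      rcases mem_insert_iff.1 (connectedComponentIn_subset _ _ hy) with h1 | h1 | h1
      · exact hzx h1
      · exact h1 (mem_insert _ _)
      · exact hzV h1
    · rintro y ⟨hyM, hyz⟩
      apply hDcl
      refine ⟨?_, ?_⟩
      · rw [hDst _ (hZ₁c.insert z) (subset_insert _ _)]
        exact subset_closure hyM
      · rcases mem_insert_iff.1 (connectedComponentIn_subset _ _ hyM) with h1 | h1 | h1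
        · rw [h1]; exact hxE _
        · refine mem_insert_of_mem _ (Or.inl fun hc => ?_)
          rcases mem_insert_iff.1 hc with h2 | h2
          · exact hyz h2
          · exact h1 h2
        · exact hVE _ h1
  have hpiece : ∀ n z u, z ∉ V → z ≠ x → u ∈ M ∩ o n →
      IsPreconnected (connectedComponentIn (M ∩ o n) u \ {z}) := by
    intro n z u hzV hzx hu
    set N := connectedComponentIn (M ∩ o n) u with hN
    by_cases hne : (N \ {z}).Nonempty
    · obtain ⟨w, hwN, hwz⟩ := hne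
      have hNw : N = connectedComponentIn (M ∩ o n) w := connectedComponentIn_eq hwN
      have hNsub : N ⊆ M ∩ o n := connectedComponentIn_subset _ _
      have hwD : w ∈ D (insert z Z₁) ∩ o n := by
        rw [hDz z hzV hzx]; exact ⟨⟨(hNsub hwN).1, hwz⟩, (hNsub hwN).2⟩
      have heq : N \ {z} = connectedComponentIn (D (insert z Z₁) ∩ o n) w := by
        apply subset_antisymm
        · rintro v ⟨hvN, hvz⟩
          apply relcl h (hDp _) (ho1 n).1 hwD
          · rw [hDz z hzV hzx]; exact ⟨⟨(hNsub hvN).1, hvz⟩, (hNsub hvN).2⟩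
          · have h3 : (w, v) ∈ R n Z₁ := ⟨hNsub hwN, by
              change v ∈ connectedComponentIn (M ∩ o n) w
              rw [← hNw]; exact hvN⟩
            have h4 := subset_closure h3
            rw [← hRst n (insert z Z₁) (hZ₁c.insert z) (subset_insert _ _)] at h4
            exact h4
        · intro v hv
          have h5 := connectedComponentIn_subset _ _ hv
          rw [hDz z hzV hzx] at h5
          refine ⟨?_, h5.1.2⟩
          rw [hNw]
          refine connectedComponentIn_mono _ (inter_subset_inter_left _ ?_) hv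
          exact hDanti _ _ (subset_insert _ _)
      rw [heq]
      exact isPreconnected_connectedComponentIn
    · rw [not_nonempty_iff_eq_empty] at hne
      rw [hne]; exact isPreconnected_empty
  have hcutM : ∀ (O G : Set X) (z : X), IsOpen G → O = M ∩ G → IsPreconnected O → z ∉ V → z ≠ x →
      IsPreconnected (O \ {z}) := by
    intro O G z hG hOG hO hzV hzx
    by_cases hzO : z ∈ O
    · have hz' := hzO
      rw [hOG] at hz'
      obtain ⟨n, hn1, hn2⟩ := ho2 G hG z hz'.2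
      obtain ⟨GN, hGN, hNM⟩ := comp_eq_inter h hMp (ho1 n).1 hz'.1 hn1
      refine cutPiece hO hOG hGN hNM (mem_connectedComponentIn ⟨hz'.1, hn1⟩) ?_
        (hpiece n z z hzV hzx ⟨hz'.1, hn1⟩) hzO
      intro y hy
      have := connectedComponentIn_subset _ _ hy
      rw [hOG]; exact ⟨this.1, hn2 this.2⟩
    · rw [sdiff_singleton_eq_self hzO]; exact hO
  -- a point off `closure V ∪ {x}`
  obtain ⟨v, hv⟩ := hVn
  have hvx : v ≠ x := by rintro rfl; exact hx (subset_closure hv)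
  obtain ⟨y₀, hy₀M, hy₀V, hy₀x⟩ := hMp (closure V)ᶜ {x}ᶜ isClosed_closure.isOpen_compl
    isClosed_singleton.isOpen_compl (by
      intro y _
      by_cases hyx : y = x
      · subst hyx; exact Or.inl hx
      · exact Or.inr hyx) ⟨x, hxM, hx⟩ ⟨v, hVM hv, hvx⟩
  obtain ⟨G', hG', hMG'⟩ := comp_eq_inter h hMp
    (isClosed_closure (s := V).isOpen_compl.inter (isClosed_singleton (x := x)).isOpen_compl)
    hy₀M ⟨hy₀V, hy₀x⟩
  set M' := connectedComponentIn (M ∩ ((closure V)ᶜ ∩ {x}ᶜ)) y₀ with hM'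
  have hy₀M' : y₀ ∈ M' := mem_connectedComponentIn ⟨hy₀M, hy₀V, hy₀x⟩
  have hM'sub : M' ⊆ M ∩ ((closure V)ᶜ ∩ {x}ᶜ) := connectedComponentIn_subset _ _
  have hM'p : IsPreconnected M' := isPreconnected_connectedComponentIn
  have hxG' : x ∉ G' := by
    intro hc
    have : x ∈ M' := by rw [hMG']; exact ⟨hxM, hc⟩
    exact (hM'sub this).2.2 rfl
  obtain ⟨y₁, hy₁M, hy₁G, hy₁0⟩ := hMp G' {y₀}ᶜ hG' isClosed_singleton.isOpen_compl (by
      intro y _
      by_cases hyx : y = y₀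
      · subst hyx; left; rw [hMG'] at hy₀M'; exact hy₀M'.2
      · exact Or.inr hyx) ⟨y₀, hy₀M, by rw [hMG'] at hy₀M'; exact hy₀M'.2⟩
      ⟨x, hxM, fun hc => hy₀x hc.symm⟩
  have hy₁M' : y₁ ∈ M' := by rw [hMG']; exact ⟨hy₁M, hy₁G⟩
  have hnt : Nontrivial ↥M' := ⟨⟨⟨y₁, hy₁M'⟩, ⟨y₀, hy₀M'⟩, fun hc => hy₁0 (congrArg Subtype.val hc)⟩⟩
  have hM'u : IsPreconnected (univ : Set ↥M') := by
    rw [← Topology.IsInducing.subtypeVal.isPreconnected_image, image_univ, Subtype.range_val]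
    exact hM'p
  refine thmA (h.subtype M') hM'u ?_
  intro O hO hOp z
  obtain ⟨G'', hG'', hOG''⟩ := isOpen_induced_iff.1 hO
  rw [← Topology.IsInducing.subtypeVal.isPreconnected_image]
  have h6 : Subtype.val '' (O \ {z}) = (Subtype.val '' O) \ {z.1} := by
    rw [image_sdiff Subtype.val_injective, image_singleton]
  rw [h6]
  refine hcutM (Subtype.val '' O) (G' ∩ G'') z.1 (hG'.inter hG'') ?_
    (hOp.image _ continuous_subtype_val.continuousOn) ?_ ?_
  · rw [← hOG'', Subtype.image_preimage_coe, hMG', inter_assoc]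
  · intro hc
    exact (hM'sub z.2).2.1 (subset_closure hc)
  · intro hc
    exact (hM'sub z.2).2.2 hc

end Pool.Agent.H318.HLC
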