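import Pool.Agent.H318.HLC.Chan

set_option autoImplicit false

namespace Pool.Agent.H318.HLC

open Set Topology Metric Filter

section general

variable {X : Type*} [MetricSpace X]

/-- Infinitely many disjoint channels from a connected set cannot accumulate at a point. -/
theorem lemW (h : Hlc X) {O : Set X} (hO : IsPreconnected O) {p : X} (hp : p ∉ closure O)
    {E : ℕ → Set X} (hE : ∀ k, IsOpen (E k)) (hEp : ∀ k, IsPreconnected (E k))
    (hd : ∀ i j, i ≠ j → E i ∩ E j = ∅) (hEO : ∀ k, (E k ∩ O).Nonempty) (hpE : ∀ k, p ∉ E k)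
    (hEb : ∀ k : ℕ, (E k ∩ ball p (1 / (k + 1 : ℝ))).Nonempty) : False := by
  choose a ha using hEO
  choose b hb using hEb
  have hT : ∀ k, ∃ T, IsClosed T ∧ IsPreconnected T ∧ T ⊆ E k ∧ a k ∈ T ∧ b k ∈ T :=
    fun k => T0 h (hEp k) (hE k).isLocallyClosed (ha k).1 (hb k).1
  choose T hT1 hT2 hT3 hT4 hT5 using hT
  have hU : IsPreconnected (⋃ k, (O ∪ T k)) :=
    isPreconnected_iUnion ⟨a 0, mem_iInter.2 fun k => Or.inl (ha 0).2⟩
      fun k => hO.union (a k) (ha k).2 (hT4 k) (hT2 k)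
  have hpc : p ∈ closure (⋃ k, (O ∪ T k)) := by
    rw [Metric.mem_closure_iff]
    intro ε hε
    obtain ⟨N, hN⟩ := exists_nat_one_div_lt hε
    refine ⟨b N, mem_iUnion.2 ⟨N, Or.inr (hT5 N)⟩, ?_⟩
    have := (hb N).2
    rw [mem_ball, dist_comm] at this
    linarith
  have hD : IsPreconnected (insert p (⋃ k, (O ∪ T k))) :=
    hU.subset_closure (subset_insert _ _) (insert_subset hpc subset_closure)
  obtain ⟨G, hG, hRG⟩ := comp_eq_inter h hD (isClosed_closure (s := O)).isOpen_compl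
    (mem_insert _ _) hp
  set R := connectedComponentIn (insert p (⋃ k, (O ∪ T k)) ∩ (closure O)ᶜ) p with hR
  have hpR : p ∈ R := mem_connectedComponentIn ⟨mem_insert _ _, hp⟩
  have hpG : p ∈ G := by rw [hRG] at hpR; exact hpR.2
  obtain ⟨ε, hε, hεG⟩ := Metric.isOpen_iff.1 hG p hpG
  obtain ⟨N, hN⟩ := exists_nat_one_div_lt hε
  have hbR : b N ∈ R := by
    rw [hRG]
    refine ⟨mem_insert_of_mem _ (mem_iUnion.2 ⟨N, Or.inr (hT5 N)⟩), hεG ?_⟩
    exact ball_subset_ball hN.le (hb N).2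
  have hRsub : ∀ y ∈ R, y = p ∨ ∃ k, y ∈ T k := by
    intro y hy
    obtain ⟨hy1, hy2⟩ := connectedComponentIn_subset _ _ hy
    rcases mem_insert_iff.1 hy1 with h1 | h1
    · exact Or.inl h1
    · obtain ⟨k, hk | hk⟩ := mem_iUnion.1 h1
      · exact absurd (subset_closure hk) hy2
      · exact Or.inr ⟨k, hk⟩
  have hRE : ∀ y ∈ R, y ∈ E N → y ∈ T N := by
    intro y hy hyE
    rcases hRsub y hy with rfl | ⟨k, hk⟩
    · exact absurd hyE (hpE N)
    · by_cases hkN : k = N
      · subst hkN; exact hk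
      · exfalso
        have : y ∈ E k ∩ E N := ⟨hT3 k hk, hyE⟩
        rw [hd k N hkN] at this; exact this
  have hfull : R ⊆ T N := by
    refine clopen_full (G := E N) isPreconnected_connectedComponentIn (hE N) ?_ ?_
      ⟨b N, hbR, (hb N).1⟩
    · rintro y ⟨hy, hyE⟩
      exact hRE y hy hyE
    · rintro y ⟨hy, hyc⟩
      rw [(hT1 N).closure_eq] at hyc
      exact hT3 N hyc
  exact hpE N (hT3 N (hfull hpR))

theorem Hlc.subtype (h : Hlc X) (A : Set X) : Hlc ↥A := by
  intro S hS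
  have hS' : IsPreconnected (Subtype.val '' S) := hS.image _ continuous_subtype_val.continuousOn
  have := h _ hS'
  let e : ↥S ≃ₜ ↥(Subtype.val '' S) := Topology.IsEmbedding.subtypeVal.homeomorphImage S
  exact e.isOpenEmbedding.locallyConnectedSpace

theorem openComp (h : Hlc X) (hX : IsPreconnected (univ : Set X)) {N : Set X} (hN : IsOpen N)
    (p : X) : IsOpen (connectedComponentIn N p) := by
  by_cases hp : p ∈ N
  · obtain ⟨G, hG, hGC⟩ := comp_eq_inter h hX hN (mem_univ p) hp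
    rw [univ_inter, univ_inter] at hGC
    rw [hGC]; exact hG
  · rw [connectedComponentIn_eq_empty hp]; exact isOpen_empty

theorem noIso [Nontrivial X] (hX : IsPreconnected (univ : Set X)) {U : Set X} (hU : IsOpen U)
    (hne : U.Nonempty) (z : X) : ∃ u ∈ U, u ≠ z := by
  by_contra hcon
  push Not at hcon
  obtain ⟨u, hu⟩ := hne
  have huz := hcon u hu
  subst huz
  obtain ⟨w, hw⟩ := exists_ne u
  obtain ⟨y, -, hy1, hy2⟩ := hX U {u}ᶜ hU isClosed_singleton.isOpen_compl
    (by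
      intro y _
      by_cases hy : y = u
      · subst hy; exact Or.inl hu
      · exact Or.inr hy) ⟨u, mem_univ _, hu⟩ ⟨w, mem_univ _, hw⟩
  exact hy2 (hcon y hy1)

/-- chains of good links -/
theorem exists_links (h : Hlc X) (hX : IsPreconnected (univ : Set X)) {P Q : Set X}
    (hP : IsClosed P) (hPp : IsPreconnected P) (hQ : IsClosed Q) (hQp : IsPreconnected Q)
    (hPQ : P ∩ Q = ∅) (hPn : P.Nonempty) (hQn : Q.Nonempty)
    (hgood : ∀ y, ∃ R, IsClosed R ∧ IsPreconnected R ∧ y ∉ R ∧ (R ∩ P).Nonempty ∧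
      (R ∩ Q).Nonempty) :
    ∃ n L, 1 ≤ n ∧ L 0 = P ∧ L (n + 1) = Q ∧ Links L n ∧
      ∀ i, 1 ≤ i → i ≤ n → Good P Q (L i) := by
  classical
  -- relation
  have key : ∀ x y : X, ∃ (m : ℕ) (L : ℕ → Set X), x ∈ L 0 ∧ y ∈ L m ∧
      (∀ i ≤ m, IsClosed (L i) ∧ IsPreconnected (L i) ∧ Good P Q (L i)) ∧
      ∀ i < m, (L i ∩ L (i + 1)).Nonempty := by
    intro x y
    refine hX.induction₂ (fun x y => ∃ (m : ℕ) (L : ℕ → Set X), x ∈ L 0 ∧ y ∈ L m ∧
      (∀ i ≤ m, IsClosed (L i) ∧ IsPreconnected (L i) ∧ Good P Q (L i)) ∧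
      ∀ i < m, (L i ∩ L (i + 1)).Nonempty) ?_ ?_ ?_ (mem_univ x) (mem_univ y)
    · intro x _
      rw [nhdsWithin_univ]
      obtain ⟨R, r1, r2, r3, r4, r5⟩ := hgood x
      obtain ⟨ε, hε, hεR⟩ := Metric.nhds_basis_closedBall.mem_iff.1 (r1.isOpen_compl.mem_nhds r3)
      have hxC : x ∈ connectedComponentIn (ball x ε) x :=
        mem_connectedComponentIn (mem_ball_self hε)
      have hcl : closure (connectedComponentIn (ball x ε) x) ⊆ closedBall x ε :=
        closure_minimal ((connectedComponentIn_subset _ _).trans ball_subset_closedBall)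
          isClosed_closedBall
      filter_upwards [(openComp h hX isOpen_ball x).mem_nhds hxC] with y hy
      refine ⟨0, fun _ => closure (connectedComponentIn (ball x ε) x), subset_closure hxC,
        subset_closure hy, fun i _ => ⟨isClosed_closure,
          isPreconnected_connectedComponentIn.closure, R, r1, r2, ?_, r4, r5⟩, fun i hi => ?_⟩
      · rw [eq_empty_iff_forall_notMem]
        rintro w ⟨hw1, hw2⟩
        exact hεR (hcl hw2) hw1
      · omega
    · rintro x y z _ _ _ ⟨m, L, l1, l2, l3, l4⟩ ⟨m', L', l1', l2', l3', l4'⟩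
      refine ⟨m + m' + 1, fun k => if k ≤ m then L k else L' (k - m - 1), ?_, ?_, ?_, ?_⟩
      · simpa using l1
      · simp only [show ¬ (m + m' + 1 ≤ m) by omega, if_false]
        rw [show m + m' + 1 - m - 1 = m' by omega]
        exact l2'
      · intro i hi
        by_cases him : i ≤ m
        · simp only [him, if_true]; exact l3 i him
        · simp only [him, if_false]; exact l3' _ (by omega)
      · intro i hi
        by_cases him : i ≤ m
        · by_cases him2 : i + 1 ≤ m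
          · simp only [him, him2, if_true]; exact l4 i (by omega)
          · have : i = m := by omega
            subst this
            simp only [le_refl, if_true, him2, if_false]
            rw [show i + 1 - i - 1 = 0 by omega]
            exact ⟨y, l2, l1'⟩
        · simp only [him, if_false, show ¬ (i + 1 ≤ m) by omega]
          rw [show i + 1 - m - 1 = i - m - 1 + 1 by omega]
          exact l4' _ (by omega)
    · rintro x y _ _ ⟨m, L, l1, l2, l3, l4⟩
      refine ⟨m, fun k => L (m - k), ?_, ?_, ?_, ?_⟩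
      · simpa using l2
      · simpa using l1
      · intro i hi; exact l3 _ (by omega)
      · intro i hi
        obtain ⟨w, hw1, hw2⟩ := l4 (m - (i + 1)) (by omega)
        rw [show m - (i + 1) + 1 = m - i by omega] at hw2
        exact ⟨w, hw2, hw1⟩
  obtain ⟨p, hp⟩ := hPn
  obtain ⟨q, hq⟩ := hQn
  let Pr : ℕ → Prop := fun n => ∃ L : ℕ → Set X, L 0 = P ∧ L (n + 1) = Q ∧
    (∀ i ≤ n + 1, IsClosed (L i) ∧ IsPreconnected (L i)) ∧
    (∀ i, 1 ≤ i → i ≤ n → Good P Q (L i)) ∧ ∀ i ≤ n, (L i ∩ L (i + 1)).Nonempty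
  have hex : ∃ n, Pr n := by
    obtain ⟨m, L, l1, l2, l3, l4⟩ := key p q
    refine ⟨m + 1, fun k => if k = 0 then P else if k ≤ m + 1 then L (k - 1) else Q, ?_, ?_, ?_,
      ?_, ?_⟩
    · simp
    · simp
    · intro i hi
      by_cases hi0 : i = 0
      · subst hi0; simp only [if_true]; exact ⟨hP, hPp⟩
      · by_cases him : i ≤ m + 1
        · simp only [hi0, him, if_false, if_true]
          exact ⟨(l3 _ (by omega)).1, (l3 _ (by omega)).2.1⟩
        · simp only [hi0, him, if_false]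
          exact ⟨hQ, hQp⟩
    · intro i hi1 hi2
      simp only [show i ≠ 0 by omega, hi2, if_false, if_true]
      exact (l3 _ (by omega)).2.2
    · intro i hi
      by_cases hi0 : i = 0
      · subst hi0
        simp only [if_true, show (0 : ℕ) + 1 ≠ 0 by omega, if_false,
          show (0 : ℕ) + 1 ≤ m + 1 by omega]
        exact ⟨p, hp, l1⟩
      · by_cases him : i + 1 ≤ m + 1
        · simp only [hi0, if_false, show i + 1 ≠ 0 by omega, him, if_true,
            show i ≤ m + 1 by omega]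
          obtain ⟨w, hw1, hw2⟩ := l4 (i - 1) (by omega)
          rw [show i - 1 + 1 = i + 1 - 1 by omega] at hw2
          exact ⟨w, hw1, hw2⟩
        · have : i = m + 1 := by omega
          subst this
          simp only [show m + 1 ≠ 0 by omega, if_false, le_refl, if_true,
            show m + 1 + 1 ≠ 0 by omega, show ¬ (m + 1 + 1 ≤ m + 1) by omega]
          rw [show m + 1 - 1 = m by omega]
          exact ⟨q, l2, hq⟩
  obtain ⟨L, l1, l2, l3, l4, l5⟩ := Nat.find_spec hex
  set n := Nat.find hex with hn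
  have hn1 : 1 ≤ n := by
    by_contra hc
    have hn0 : n = 0 := by omega
    obtain ⟨w, hw1, hw2⟩ := l5 0 (by omega)
    have hw : w ∈ P ∩ Q := by
      rw [l1] at hw1
      rw [hn0] at l2
      rw [l2] at hw2
      exact ⟨hw1, hw2⟩
    rw [hPQ] at hw; exact hw
  refine ⟨n, L, hn1, l1, l2, ⟨fun i hi => (l3 i hi).1, fun i hi => (l3 i hi).2, l5, ?_⟩, l4⟩
  intro i j hij hjn
  by_contra hne
  rw [← ne_eq, ← nonempty_iff_ne_empty] at hne
  refine Nat.find_min hex (m := n - (j - i - 1)) (by omega) ?_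
  refine ⟨fun k => if k ≤ i then L k else L (k + (j - i - 1)), ?_, ?_, ?_, ?_, ?_⟩
  · simpa using l1
  · simp only [show ¬ (n - (j - i - 1) + 1 ≤ i) by omega, if_false]
    rw [show n - (j - i - 1) + 1 + (j - i - 1) = n + 1 by omega]
    exact l2
  · intro k hk
    by_cases hki : k ≤ i
    · simp only [hki, if_true]; exact l3 k (by omega)
    · simp only [hki, if_false]; exact l3 _ (by omega)
  · intro k hk1 hk2
    by_cases hki : k ≤ i
    · simp only [hki, if_true]; exact l4 k hk1 (by omega)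
    · simp only [hki, if_false]; exact l4 _ (by omega) (by omega)
  · intro k hk
    by_cases hki : k ≤ i
    · by_cases hki2 : k + 1 ≤ i
      · simp only [hki, hki2, if_true]; exact l5 k (by omega)
      · have : k = i := by omega
        subst this
        simp only [le_refl, if_true, hki2, if_false]
        rw [show k + 1 + (j - k - 1) = j by omega]
        exact hne
    · simp only [hki, if_false, show ¬ (k + 1 ≤ i) by omega]
      rw [show k + 1 + (j - i - 1) = k + (j - i - 1) + 1 by omega]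
      exact l5 _ (by omega)

theorem SL [Nontrivial X] (h : Hlc X) (hX : IsPreconnected (univ : Set X))
    (hcut : ∀ z : X, IsPreconnected ({z}ᶜ : Set X)) (p : X) {V : Set X} (hV : IsOpen V)
    (hVn : V.Nonempty) {r : ℝ} (hr : 0 < r) :
    ∃ C E : Set X, IsOpen C ∧ IsPreconnected C ∧ IsOpen E ∧ IsPreconnected E ∧ p ∈ C ∧
      (C ∩ V).Nonempty ∧ (E ∩ V).Nonempty ∧ (E ∩ ball p r).Nonempty ∧ C ∩ E = ∅ := by
  obtain ⟨v, hvV, hvp⟩ := noIso hX hV hVn p
  obtain ⟨r₁, hr₁, hr₁V⟩ := Metric.nhds_basis_closedBall.mem_iff.1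
    ((hV.inter (isClosed_singleton (x := p)).isOpen_compl).mem_nhds ⟨hvV, hvp⟩)
  set V₀ := connectedComponentIn (ball v r₁) v with hV₀
  have hV₀o : IsOpen V₀ := openComp h hX isOpen_ball v
  have hvV₀ : v ∈ V₀ := mem_connectedComponentIn (mem_ball_self hr₁)
  have hV₀c : closure V₀ ⊆ V ∩ {p}ᶜ :=
    (closure_minimal ((connectedComponentIn_subset _ _).trans ball_subset_closedBall)
      isClosed_closedBall).trans hr₁V
  have hpV₀ : p ∈ (closure V₀)ᶜ := fun hc => (hV₀c hc).2 rfl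
  obtain ⟨r₂, hr₂, hr₂V⟩ := Metric.nhds_basis_closedBall.mem_iff.1
    (((isOpen_ball (x := p) (ε := r)).inter
      (isClosed_closure (s := V₀)).isOpen_compl).mem_nhds ⟨mem_ball_self hr, hpV₀⟩)
  set W₀ := connectedComponentIn (ball p r₂) p with hW₀
  have hW₀o : IsOpen W₀ := openComp h hX isOpen_ball p
  have hpW₀ : p ∈ W₀ := mem_connectedComponentIn (mem_ball_self hr₂)
  have hW₀p : IsPreconnected W₀ := isPreconnected_connectedComponentIn
  have hW₀c : closure W₀ ⊆ ball p r ∩ (closure V₀)ᶜ :=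
    (closure_minimal ((connectedComponentIn_subset _ _).trans ball_subset_closedBall)
      isClosed_closedBall).trans hr₂V
  have hdis : closure V₀ ∩ closure W₀ = ∅ := by
    rw [eq_empty_iff_forall_notMem]
    rintro y ⟨hy1, hy2⟩
    exact (hW₀c hy2).2 hy1
  obtain ⟨n, L, hn, hL0, hL1, hL, hG⟩ := exists_links h hX (P := closure V₀) (Q := closure W₀)
    isClosed_closure isPreconnected_connectedComponentIn.closure isClosed_closure
    hW₀p.closure hdis ⟨v, subset_closure hvV₀⟩ ⟨p, subset_closure hpW₀⟩ (by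
      intro y
      obtain ⟨a, ha, hay⟩ := noIso hX hV₀o ⟨v, hvV₀⟩ y
      obtain ⟨b, hb, hby⟩ := noIso hX hW₀o ⟨p, hpW₀⟩ y
      obtain ⟨T, t1, t2, t3, t4, t5⟩ := T0 h (hcut y)
        isClosed_singleton.isOpen_compl.isLocallyClosed hay hby
      exact ⟨T, t1, t2, fun hc => t3 hc rfl, ⟨a, t4, subset_closure ha⟩,
        ⟨b, t5, subset_closure hb⟩⟩)
  obtain ⟨A, B, w, w', hA, hB, hAB⟩ := twoChannel h hL hn (by rw [hL0, hL1]; exact hG)
  have hTg : Tg L n (n + 1) = closure W₀ := by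
    ext y
    rw [mem_Tg]
    constructor
    · rintro ⟨i, h1, h2, h3⟩
      have : i = n + 1 := by omega
      subst this
      rw [hL1] at h3; exact h3
    · intro hy
      exact ⟨n + 1, le_rfl, le_rfl, by rw [hL1]; exact hy⟩
  have hAi := hA.inter
  have hBi := hB.inter
  rw [hTg] at hAi hBi
  have hnotin : ∀ (A : Set X) (w : X), Ch L n (n + 1) A w → A ∩ closure W₀ = {w} → w ∉ W₀ := by
    intro A w hA hAi hw
    obtain ⟨a, haA, ha0⟩ := hA.start
    rw [hL0] at ha0
    have haw : a ≠ w := by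
      rintro rfl
      have : a ∈ closure V₀ ∩ closure W₀ := ⟨ha0, subset_closure hw⟩
      rw [hdis] at this; exact this
    have hwc : w ∈ closure (A \ {w}) := by
      by_contra hc
      obtain ⟨y, hy, hy1, hy2⟩ := hA.pc (closure (A \ {w}))ᶜ {w}ᶜ isClosed_closure.isOpen_compl
        isClosed_singleton.isOpen_compl (by
          intro y _
          by_cases hyw : y = w
          · subst hyw; exact Or.inl hc
          · exact Or.inr hyw) ⟨w, hA.mem, hc⟩ ⟨a, haA, haw⟩
      exact hy1 (subset_closure ⟨hy, hy2⟩)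
    obtain ⟨y, hy1, hy2, hy3⟩ := mem_closure_iff.1 hwc W₀ hW₀o hw
    have : y ∈ A ∩ closure W₀ := ⟨hy2, subset_closure hy1⟩
    rw [hAi] at this
    exact hy3 this
  have hwW : w ∉ W₀ := hnotin A w hA hAi
  have hwW' : w' ∉ W₀ := hnotin B w' hB hBi
  have hwc : w ∈ closure W₀ := by
    have : w ∈ A ∩ closure W₀ := by rw [hAi]; rfl
    exact this.2
  have hwc' : w' ∈ closure W₀ := by
    have : w' ∈ B ∩ closure W₀ := by rw [hBi]; rfl
    exact this.2
  obtain ⟨S, s1, s2, s3, s4, s5, -⟩ := T1 h hW₀p hW₀o.isLocallyClosed hpW₀ hwc hwW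
  have hdisj : Disjoint (A ∪ S) B := by
    rw [Set.disjoint_left]
    rintro y (hy | hy) hyB
    · have : y ∈ A ∩ B := ⟨hy, hyB⟩
      rw [hAB] at this; exact this
    · rcases s3 hy with rfl | hyW
      · have : y ∈ A ∩ B := ⟨hA.mem, hyB⟩
        rw [hAB] at this; exact this
      · have : y ∈ B ∩ closure W₀ := ⟨hyB, subset_closure hyW⟩
        rw [hBi] at this
        have hyw : y = w' := this
        rw [hyw] at hyW
        exact hwW' hyW
  obtain ⟨Ω₁, Ω₂, o1, o2, o3, o4, o5⟩ := normal_separation (hA.cl.union s1) hB.cl hdisj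
  have hASp : IsPreconnected (A ∪ S) := hA.pc.union w hA.mem s5 s2
  have hAC : A ∪ S ⊆ connectedComponentIn Ω₁ p :=
    hASp.subset_connectedComponentIn (Or.inr s4) o3
  have hBC : B ⊆ connectedComponentIn Ω₂ w' := hB.pc.subset_connectedComponentIn hB.mem o4
  refine ⟨connectedComponentIn Ω₁ p, connectedComponentIn Ω₂ w', openComp h hX o1 p,
    isPreconnected_connectedComponentIn, openComp h hX o2 w', isPreconnected_connectedComponentIn,
    hAC (Or.inr s4), ?_, ?_, ?_, ?_⟩
  · obtain ⟨a, ha1, ha2⟩ := hA.start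
    rw [hL0] at ha2
    exact ⟨a, hAC (Or.inl ha1), (hV₀c ha2).1⟩
  · obtain ⟨a, ha1, ha2⟩ := hB.start
    rw [hL0] at ha2
    exact ⟨a, hBC ha1, (hV₀c ha2).1⟩
  · exact ⟨w', hBC hB.mem, (hW₀c hwc').1⟩
  · rw [eq_empty_iff_forall_notMem]
    rintro y ⟨hy1, hy2⟩
    exact Set.disjoint_left.1 o5 (connectedComponentIn_subset _ _ hy1)
      (connectedComponentIn_subset _ _ hy2)

theorem SL' [Nontrivial X] (h : Hlc X) (hX : IsPreconnected (univ : Set X))
    (hcut : ∀ O : Set X, IsOpen O → IsPreconnected O → ∀ z : X, IsPreconnected (O \ {z}))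
    {p : X} {V C₀ : Set X} (hV : IsOpen V) (hC₀ : IsOpen C₀) (hC₀p : IsPreconnected C₀)
    (hp : p ∈ C₀) (hVn : (C₀ ∩ V).Nonempty) {r : ℝ} (hr : 0 < r) :
    ∃ C E : Set X, IsOpen C ∧ IsPreconnected C ∧ IsOpen E ∧ IsPreconnected E ∧ p ∈ C ∧
      (C ∩ V).Nonempty ∧ (E ∩ V).Nonempty ∧ (E ∩ ball p r).Nonempty ∧ C ∩ E = ∅ ∧
      C ⊆ C₀ ∧ E ⊆ C₀ := by
  obtain ⟨u, hu, hup⟩ := noIso hX hC₀ ⟨p, hp⟩ p
  have : Nontrivial ↥C₀ := ⟨⟨⟨u, hu⟩, ⟨p, hp⟩, fun hc => hup (congrArg Subtype.val hc)⟩⟩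
  obtain ⟨v, hv1, hv2⟩ := hVn
  have hC₀u : IsPreconnected (univ : Set ↥C₀) := by
    rw [← Topology.IsInducing.subtypeVal.isPreconnected_image, image_univ, Subtype.range_val]
    exact hC₀p
  obtain ⟨C, E, c1, c2, c3, c4, c5, c6, c7, c8, c9⟩ := SL (h.subtype C₀) hC₀u (by
      intro z
      rw [← Topology.IsInducing.subtypeVal.isPreconnected_image]
      have : Subtype.val '' ({z}ᶜ : Set ↥C₀) = C₀ \ {z.1} := by
        ext y
        constructor
        · rintro ⟨y, hy, rfl⟩
          exact ⟨y.2, fun hc => hy (Subtype.ext hc)⟩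
        · rintro ⟨hy, hyz⟩
          exact ⟨⟨y, hy⟩, fun hc => hyz (congrArg Subtype.val hc), rfl⟩
      rw [this]
      exact hcut C₀ hC₀ hC₀p z.1) (⟨p, hp⟩ : ↥C₀) (V := Subtype.val ⁻¹' V)
    (hV.preimage continuous_subtype_val) ⟨⟨v, hv1⟩, hv2⟩ hr
  have hoe := hC₀.isOpenEmbedding_subtypeVal
  refine ⟨Subtype.val '' C, Subtype.val '' E, hoe.isOpenMap _ c1,
    c2.image _ continuous_subtype_val.continuousOn, hoe.isOpenMap _ c3,
    c4.image _ continuous_subtype_val.continuousOn, ⟨_, c5, rfl⟩, ?_, ?_, ?_, ?_, ?_, ?_⟩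
  · obtain ⟨y, hy1, hy2⟩ := c6
    exact ⟨y.1, ⟨y, hy1, rfl⟩, hy2⟩
  · obtain ⟨y, hy1, hy2⟩ := c7
    exact ⟨y.1, ⟨y, hy1, rfl⟩, hy2⟩
  · obtain ⟨y, hy1, hy2⟩ := c8
    exact ⟨y.1, ⟨y, hy1, rfl⟩, hy2⟩
  · rw [← image_inter Subtype.val_injective, c9, image_empty]
  · rintro _ ⟨y, -, rfl⟩; exact y.2
  · rintro _ ⟨y, -, rfl⟩; exact y.2

/-- THEOREM A: a nondegenerate connected hereditarily locally connected metric space has a
connected open subset with a cut point. -/
theorem thmA [Nontrivial X] (h : Hlc X) (hX : IsPreconnected (univ : Set X))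
    (hcut : ∀ O : Set X, IsOpen O → IsPreconnected O → ∀ z : X, IsPreconnected (O \ {z})) :
    False := by
  obtain ⟨q, p, hqp⟩ := exists_pair_ne X
  obtain ⟨ε, hε, hεp⟩ := Metric.nhds_basis_closedBall.mem_iff.1
    ((isClosed_singleton (x := p)).isOpen_compl.mem_nhds hqp)
  set V := connectedComponentIn (ball q ε) q with hV
  have hVo : IsOpen V := openComp h hX isOpen_ball q
  have hqV : q ∈ V := mem_connectedComponentIn (mem_ball_self hε)
  have hpV : p ∉ closure V := fun hc => hεp (closure_minimal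
    ((connectedComponentIn_subset _ _).trans ball_subset_closedBall) isClosed_closedBall hc) rfl
  let St := {C : Set X // IsOpen C ∧ IsPreconnected C ∧ p ∈ C ∧ (C ∩ V).Nonempty}
  have step : ∀ (k : ℕ) (C : St), ∃ (C' : St) (E : Set X), C'.1 ⊆ C.1 ∧ E ⊆ C.1 ∧ IsOpen E ∧
      IsPreconnected E ∧ (E ∩ V).Nonempty ∧ (E ∩ ball p (1 / (k + 1 : ℝ))).Nonempty ∧
      C'.1 ∩ E = ∅ := by
    rintro k ⟨C, h1, h2, h3, h4⟩
    obtain ⟨C', E, c1, c2, c3, c4, c5, c6, c7, c8, c9, c10, c11⟩ := SL' h hX hcut hVo h1 h2 h3 h4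
      (r := 1 / (k + 1 : ℝ)) (by positivity)
    exact ⟨⟨C', c1, c2, c5, c6⟩, E, c10, c11, c3, c4, c7, c8, c9⟩
  choose f g hf1 hf2 hf3 hf4 hf5 hf6 hf7 using step
  let C : ℕ → St := fun k => Nat.rec ⟨univ, isOpen_univ, hX, mem_univ _, ⟨q, mem_univ _, hqV⟩⟩
    (fun k C => f k C) k
  have hCs : ∀ k, C (k + 1) = f k (C k) := fun k => rfl
  let E : ℕ → Set X := fun k => g k (C k)
  have hCanti : ∀ i j, i ≤ j → (C j).1 ⊆ (C i).1 := by
    intro i j hij
    induction j, hij using Nat.le_induction with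
    | base => exact subset_rfl
    | succ j _ ih => rw [hCs]; exact (hf1 _ _).trans ih
  have hlt : ∀ i j, i < j → E i ∩ E j = ∅ := by
    intro i j hij
    rw [eq_empty_iff_forall_notMem]
    rintro y ⟨hy1, hy2⟩
    have h1 : y ∈ (C (i + 1)).1 := hCanti (i + 1) j hij (hf2 _ _ hy2)
    rw [hCs] at h1
    have : y ∈ (f i (C i)).1 ∩ g i (C i) := ⟨h1, hy1⟩
    rw [hf7] at this; exact this
  refine lemW h (O := V) (p := p) isPreconnected_connectedComponentIn hpV (E := E)
    (fun k => hf3 _ _) (fun k => hf4 _ _) ?_ (fun k => hf5 _ _) ?_ (fun k => hf6 _ _)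
  · intro i j hij
    rcases lt_or_gt_of_ne hij with h1 | h1
    · exact hlt i j h1
    · rw [inter_comm]; exact hlt j i h1
  · intro k hc
    have h1 : p ∈ (f k (C k)).1 := (f k (C k)).2.2.2.1
    have : p ∈ (f k (C k)).1 ∩ g k (C k) := ⟨h1, hc⟩
    rw [hf7] at this; exact this

end general

end Pool.Agent.H318.HLC
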